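import Pool.Agent.Lib.MP_7f581e_Z.EPP.Spec

/-!
# ActL: the fixed field of a realization with its action
-/

set_option autoImplicit false

namespace MP7Z.EPP

namespace ActLAux

variable {p : ℕ} [Fact p.Prime] {Ω : Type} [Field Ω] [Algebra (ZMod p) Ω] {x : Ω}
  {G : Type} [Group G]

/-- The fixed field of the kernel. -/
def fixL (ψ : Gx p x →* G) : Subfield Ω where
  carrier := {z | ∀ γ : Gx p x, ψ γ = 1 → (γ : Ω ≃ₐ[ZMod p] Ω) z = z}
  mul_mem' := by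
    intro a b ha hb γ hγ
    rw [map_mul, ha γ hγ, hb γ hγ]
  one_mem' := fun γ _ => map_one _
  add_mem' := by
    intro a b ha hb γ hγ
    rw [map_add, ha γ hγ, hb γ hγ]
  zero_mem' := fun γ _ => map_zero _
  neg_mem' := by
    intro a ha γ hγ
    rw [map_neg, ha γ hγ]
  inv_mem' := by
    intro a ha γ hγ
    rw [map_inv₀, ha γ hγ]

theorem mem_fixL {ψ : Gx p x →* G} {z : Ω} :
    z ∈ fixL ψ ↔ ∀ γ : Gx p x, ψ γ = 1 → (γ : Ω ≃ₐ[ZMod p] Ω) z = z := Iff.rfl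

theorem stable {ψ : Gx p x →* G} {z : Ω} (hz : z ∈ fixL ψ) (γ : Gx p x) :
    (γ : Ω ≃ₐ[ZMod p] Ω) z ∈ fixL ψ := by
  intro δ hδ
  have h1 : ψ (γ⁻¹ * δ * γ) = 1 := by
    rw [map_mul, map_mul, hδ, mul_one, ← map_mul, inv_mul_cancel, map_one]
  have h2 := hz (γ⁻¹ * δ * γ) h1
  have h3 : (γ : Ω ≃ₐ[ZMod p] Ω) (((γ⁻¹ * δ * γ : Gx p x) : Ω ≃ₐ[ZMod p] Ω) z) =
      (δ : Ω ≃ₐ[ZMod p] Ω) ((γ : Ω ≃ₐ[ZMod p] Ω) z) := by
    have h4 : γ * (γ⁻¹ * δ * γ) = δ * γ := by group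
    have h5 := congrArg (fun w : Gx p x => (w : Ω ≃ₐ[ZMod p] Ω) z) h4
    exact h5
  rw [← h3, h2]

/-- The restriction. -/
def res (ψ : Gx p x →* G) (γ : Gx p x) : fixL ψ ≃+* fixL ψ where
  toFun z := ⟨(γ : Ω ≃ₐ[ZMod p] Ω) z, stable z.2 γ⟩
  invFun z := ⟨((γ⁻¹ : Gx p x) : Ω ≃ₐ[ZMod p] Ω) z, stable z.2 γ⁻¹⟩
  left_inv z := by
    apply Subtype.ext
    have h : γ⁻¹ * γ = 1 := inv_mul_cancel γ
    exact congrArg (fun w : Gx p x => (w : Ω ≃ₐ[ZMod p] Ω) z) h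
  right_inv z := by
    apply Subtype.ext
    have h : γ * γ⁻¹ = 1 := mul_inv_cancel γ
    exact congrArg (fun w : Gx p x => (w : Ω ≃ₐ[ZMod p] Ω) z) h
  map_mul' a b := Subtype.ext (map_mul _ _ _)
  map_add' a b := Subtype.ext (map_add _ _ _)

/-- The restriction as a homomorphism. -/
def resHom (ψ : Gx p x →* G) : Gx p x →* (fixL ψ ≃+* fixL ψ) where
  toFun γ := res ψ γ
  map_one' := by
    ext z
    rfl
  map_mul' a b := by
    ext z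
    rfl

theorem resHom_apply (ψ : Gx p x →* G) (γ : Gx p x) (z : fixL ψ) :
    ((resHom ψ γ z : fixL ψ) : Ω) = (γ : Ω ≃ₐ[ZMod p] Ω) (z : Ω) := rfl

theorem ker_le (ψ : Gx p x →* G) : ψ.ker ≤ (resHom ψ).ker := by
  intro γ hγ
  rw [MonoidHom.mem_ker] at hγ ⊢
  ext z
  exact z.2 γ hγ

end ActLAux

open ActLAux in
theorem actLStmt (h : GalFStmt) : ActLStmt := by
  intro p _ Ω _ _ x hx G _ ψ hfin hψ
  set act : G →* (fixL ψ ≃+* fixL ψ) := ψ.liftOfRightInverse (Function.surjInv hψ)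
    (Function.rightInverse_surjInv hψ) ⟨resHom ψ, ker_le ψ⟩ with hact
  have hact' : ∀ γ : Gx p x, act (ψ γ) = resHom ψ γ := by
    intro γ
    exact MonoidHom.liftOfRightInverse_comp_apply ψ (Function.surjInv hψ)
      (Function.rightInverse_surjInv hψ) ⟨resHom ψ, ker_le ψ⟩ γ
  refine ⟨fixL ψ, act, fun z => mem_fixL, ?_, ?_⟩
  · intro γ z
    rw [hact', resHom_apply]
  · intro g hg
    obtain ⟨γ, rfl⟩ := hψ g
    obtain ⟨S, hS⟩ := hfin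
    have h1 := h p Ω x hx (ψ.ker.map (Gx p x).subtype) S
      (by
        rintro _ ⟨δ, -, rfl⟩
        exact δ.2)
      (by
        intro δ hδ hs
        exact ⟨⟨δ, hδ⟩, hS ⟨δ, hδ⟩ hs, rfl⟩)
      (γ : Ω ≃ₐ[ZMod p] Ω) γ.2
      (by
        intro z hz
        have hzL : z ∈ fixL ψ := by
          intro δ hδ
          exact hz _ ⟨δ, hδ, rfl⟩
        have h2 := congrArg (fun w : fixL ψ => (w : Ω)) (hg ⟨z, hzL⟩)
        rw [hact'] at h2
        exact h2)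
    obtain ⟨δ, hδ, hδγ⟩ := h1
    have h3 : δ = γ := Subtype.ext hδγ
    rw [← h3]
    exact hδ

end MP7Z.EPP
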