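import Pool.Agent.Lib.MP_7f581e_Z.EPP.Spec

/-!
# The crossed homomorphism
-/

set_option autoImplicit false

namespace MP7Z.EPP

open Module

theorem cocStmt : CocStmt := by
  intro p hp E G A K _ _ _ _ _ _ _ ι f j ρ hext act θ hθ
  classical
  choose s hs using hext.surj
  -- the values of the cocycle
  have hκ : ∀ (e : E) (σ : G), ∃ α : A,
      j (Multiplicative.ofAdd α) = e * s ((f e)⁻¹ * σ) * (s σ)⁻¹ := by
    intro e σ
    refine (hext.ker _).mp ?_
    rw [map_mul, map_mul, map_inv, hs, hs, mul_inv_cancel_left, mul_inv_cancel]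
  choose κ hκ using hκ
  have hjinj : ∀ α β : A, j (Multiplicative.ofAdd α) = j (Multiplicative.ofAdd β) → α = β :=
    fun α β h => hext.inj h
  have hfj : ∀ α : A, f (j (Multiplicative.ofAdd α)) = 1 := fun α => (hext.ker _).mpr ⟨α, rfl⟩
  have hρj : ∀ (α β : A), ρ (j (Multiplicative.ofAdd α)) β = β := by
    intro α β
    apply hjinj
    rw [← hext.conj, ← map_mul, ← map_inv, ← map_mul]
    congr 1
    change Multiplicative.ofAdd (α + β + -α) = Multiplicative.ofAdd β
    congr 1
    abel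
  have hκmul : ∀ e e' σ, κ (e * e') σ = κ e σ + ρ e (κ e' ((f e)⁻¹ * σ)) := by
    intro e e' σ
    apply hjinj
    rw [add_comm, ofAdd_add, map_mul, ← hext.conj, hκ, hκ, hκ, map_mul, mul_inv_rev,
      mul_assoc (f e')⁻¹]
    group
  have hκj : ∀ α σ, κ (j (Multiplicative.ofAdd α)) σ = α := by
    intro α σ
    apply hjinj
    rw [hκ, hfj, inv_one, one_mul, mul_inv_cancel_right]
  let a : E → Dual (ZMod p) A → K := fun e l => ∑ σ, ι (l (κ e σ)) * act σ θ
  have hadef : ∀ e l, a e l = ∑ σ, ι (l (κ e σ)) * act σ θ := fun e l => rfl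
  have hactι : ∀ (g : G) (r : ZMod p), act g (ι r) = ι r := by
    intro g r
    have h1 : ((act g : K →+* K)).comp ι = ι := Subsingleton.elim _ _
    exact RingHom.congr_fun h1 r
  have hactmul : ∀ (g g' : G) (x : K), act g (act g' x) = act (g * g') x := by
    intro g g' x
    rw [map_mul]
    rfl
  have h1 : ∀ e e' l, a (e * e') l = a e l + act (f e) (a e' (l ∘ₗ (ρ e : A →ₗ[ZMod p] A))) := by
    intro e e' l
    rw [hadef, hadef, hadef, map_sum]
    have h2 : ∑ σ, act (f e) (ι ((l ∘ₗ (ρ e : A →ₗ[ZMod p] A)) (κ e' σ)) * act σ θ) =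
        ∑ σ, ι (l (ρ e (κ e' ((f e)⁻¹ * σ)))) * act σ θ := by
      refine Fintype.sum_equiv (Equiv.mulLeft (f e)) _ _ fun σ => ?_
      rw [map_mul, hactι, hactmul, Equiv.coe_mulLeft, inv_mul_cancel_left]
      rfl
    rw [h2, ← Finset.sum_add_distrib]
    refine Finset.sum_congr rfl fun σ _ => ?_
    rw [hκmul, map_add, map_add, add_mul]
  have h2 : ∀ e l l', a e (l + l') = a e l + a e l' := by
    intro e l l'
    rw [hadef, hadef, hadef, ← Finset.sum_add_distrib]
    refine Finset.sum_congr rfl fun σ _ => ?_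
    rw [LinearMap.add_apply, map_add, add_mul]
  have h3 : ∀ α l, a (j (Multiplicative.ofAdd α)) l = ι (l α) := by
    intro α l
    rw [hadef]
    simp only [hκj]
    rw [← Finset.mul_sum, hθ, mul_one]
  -- the Artin-Schreier operator
  let P : K → K := fun x => x ^ p - x
  have hPdef : ∀ x, P x = x ^ p - x := fun x => rfl
  have hPadd : ∀ x y, P (x + y) = P x + P y := by
    intro x y
    rw [hPdef, hPdef, hPdef, add_pow_char]
    ring
  have hPsub : ∀ x y, P (x - y) = P x - P y := by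
    intro x y
    have h4 := hPadd (x - y) y
    rw [sub_add_cancel] at h4
    rw [h4, add_sub_cancel_right]
  have hPι : ∀ r, P (ι r) = 0 := by
    intro r
    rw [hPdef, ← map_pow, ZMod.pow_card, sub_self]
  have hPact : ∀ (g : K →+* K) (x : K), g (P x) = P (g x) := by
    intro g x
    rw [hPdef, hPdef, map_sub, map_pow]
  let b : Dual (ZMod p) A → K := fun l => - ∑ σ, P (a (s σ) l) * act σ θ
  have hbdef : ∀ l, b l = - ∑ σ, P (a (s σ) l) * act σ θ := fun l => rfl
  have h4 : ∀ l l', b (l + l') = b l + b l' := by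
    intro l l'
    rw [hbdef, hbdef, hbdef, ← neg_add, ← Finset.sum_add_distrib]
    congr 1
    refine Finset.sum_congr rfl fun σ _ => ?_
    rw [h2, hPadd, add_mul]
  have h5 : ∀ e l, act (f e) (b (l ∘ₗ (ρ e : A →ₗ[ZMod p] A))) = b l + (a e l ^ p - a e l) := by
    intro e l
    have h6 : ∀ σ, P (act (f e) (a (s σ) (l ∘ₗ (ρ e : A →ₗ[ZMod p] A)))) =
        P (a (s (f e * σ)) l) - P (a e l) := by
      intro σ
      have h7 : act (f e) (a (s σ) (l ∘ₗ (ρ e : A →ₗ[ZMod p] A))) =
          a (e * s σ) l - a e l := by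
        rw [h1, add_sub_cancel_left]
      obtain ⟨β, hβ⟩ : ∃ β : A, j (Multiplicative.ofAdd β) = e * s σ * (s (f e * σ))⁻¹ := by
        refine (hext.ker _).mp ?_
        rw [map_mul, map_mul, map_inv, hs, hs, mul_inv_cancel]
      have h8 : e * s σ = j (Multiplicative.ofAdd β) * s (f e * σ) := by
        rw [hβ, inv_mul_cancel_right]
      have h9 : (l ∘ₗ (ρ (j (Multiplicative.ofAdd β)) : A →ₗ[ZMod p] A)) = l := by
        ext α
        change l (ρ (j (Multiplicative.ofAdd β)) α) = l α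
        rw [hρj]
      rw [h7, hPsub, h8, h1, h3, hPadd, hPι, zero_add, hfj, map_one, h9]
      rfl
    have h10 : act (f e) (b (l ∘ₗ (ρ e : A →ₗ[ZMod p] A))) =
        - ∑ σ, (P (a (s (f e * σ)) l) - P (a e l)) * act (f e * σ) θ := by
      rw [hbdef, map_neg, map_sum]
      congr 1
      refine Finset.sum_congr rfl fun σ _ => ?_
      rw [map_mul, hactmul, ← h6]
      congr 1
      exact hPact (act (f e) : K →+* K) _
    have h11 : ∑ σ, (P (a (s (f e * σ)) l) - P (a e l)) * act (f e * σ) θ =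
        ∑ σ, (P (a (s σ) l) - P (a e l)) * act σ θ :=
      Fintype.sum_equiv (Equiv.mulLeft (f e)) _ _ fun σ => rfl
    rw [h10, h11]
    simp only [sub_mul]
    rw [Finset.sum_sub_distrib, ← Finset.mul_sum, hθ, mul_one, neg_sub, hbdef, hPdef]
    ring
  refine ⟨a, b, h1, h2, h3, h4, h5, ?_⟩
  intro ψ hψ hψθ
  have hψι : ∀ r : ZMod p, ψ (ι r) = ι r := by
    intro r
    have h1 : ψ.comp ι = ι := Subsingleton.elim _ _
    exact RingHom.congr_fun h1 r
  have h6 : ∀ e l, ψ (a e l) = a e l := by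
    intro e l
    rw [hadef, map_sum]
    refine Finset.sum_congr rfl fun σ _ => ?_
    rw [map_mul, hψι, hψ, hψθ]
  refine ⟨h6, fun l => ?_⟩
  rw [hbdef, map_neg, map_sum]
  congr 1
  refine Finset.sum_congr rfl fun σ _ => ?_
  rw [map_mul, hψ, hψθ, hPact, h6]

end MP7Z.EPP
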