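import Pool.Agent.Lib.MP_7f581e_Z.EPP.Spec

/-!
# Package EPP: Galois correspondence for open subgroups of `Gx p x`
-/

set_option autoImplicit false

namespace MP7Z.EPP.GalFAux

open IntermediateField

variable {p : ℕ} [Fact p.Prime] {Ω : Type} [Field Ω] [Algebra (ZMod p) Ω]

/-- An automorphism fixing `x` fixes the field generated by `x`. -/
theorem fix_adjoin {x : Ω} {γ : Ω ≃ₐ[ZMod p] Ω} (h : γ x = x)
    (a : IntermediateField.adjoin (ZMod p) {x}) : γ (a : Ω) = a := by
  have hle : IntermediateField.adjoin (ZMod p) {x} ≤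
      IntermediateField.fixedField (Subgroup.closure {γ}) := by
    rw [IntermediateField.adjoin_le_iff]
    intro y hy
    rw [Set.mem_singleton_iff] at hy
    subst hy
    rw [SetLike.mem_coe, IntermediateField.mem_fixedField_iff]
    intro f hf
    rw [Subgroup.mem_closure_singleton] at hf
    obtain ⟨n, rfl⟩ := hf
    have h1 : Subgroup.zpowers γ ≤ Fx p {y} := by
      rw [Subgroup.zpowers_le]
      exact mem_Gx.2 h
    exact mem_Gx.1 (h1 ⟨n, rfl⟩)
  exact (IntermediateField.mem_fixedField_iff _ _).1 (hle a.2) γ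
    (Subgroup.subset_closure (Set.mem_singleton γ))

/-- The lift of an automorphism fixing `x` to an automorphism over `𝔽_p(x)`. -/
noncomputable def lft {x : Ω} (γ : Ω ≃ₐ[ZMod p] Ω) (h : γ x = x) :
    Ω ≃ₐ[IntermediateField.adjoin (ZMod p) {x}] Ω :=
  { γ.toRingEquiv with commutes' := fun a => fix_adjoin h a }

theorem lft_apply {x : Ω} (γ : Ω ≃ₐ[ZMod p] Ω) (h : γ x = x) (z : Ω) : lft γ h z = γ z := rfl

end MP7Z.EPP.GalFAux

namespace MP7Z.EPP

open GalFAux

theorem galFStmt : GalFStmt := by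
  intro p _ Ω _ _ x hst H S hH hS γ hγ hfix
  have hsc : IsSepClosed Ω := hst.sepClosed
  have hsep : Algebra.IsSeparable (IntermediateField.adjoin (ZMod p) {x}) Ω := hst.sep
  have hcl : IsSepClosure (IntermediateField.adjoin (ZMod p) {x}) Ω := ⟨hsc, hsep⟩
  have hgal : IsGalois (IntermediateField.adjoin (ZMod p) {x}) Ω := IsSepClosure.isGalois
  let R : (Ω ≃ₐ[IntermediateField.adjoin (ZMod p) {x}] Ω) →* (Ω ≃ₐ[ZMod p] Ω) :=
    AlgEquiv.restrictScalarsHom (ZMod p)
  have hR : ∀ (σ : Ω ≃ₐ[IntermediateField.adjoin (ZMod p) {x}] Ω) (z : Ω), R σ z = σ z :=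
    fun _ _ => rfl
  have hRG : ∀ σ, R σ ∈ Gx p x := fun σ => mem_Gx.2 (by
    have h1 := σ.commutes ⟨x, IntermediateField.mem_adjoin_simple_self (ZMod p) x⟩
    exact h1)
  have hRl : ∀ (δ : Ω ≃ₐ[ZMod p] Ω) (h : δ x = x), R (lft δ h) = δ := fun δ h => rfl
  let H' : Subgroup (Ω ≃ₐ[IntermediateField.adjoin (ZMod p) {x}] Ω) := H.comap R
  have hopen : IsOpen (H' : Set (Ω ≃ₐ[IntermediateField.adjoin (ZMod p) {x}] Ω)) := by
    apply Subgroup.isOpen_of_mem_nhds (g := 1)
    rw [krullTopology_mem_nhds_one_iff]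
    refine ⟨IntermediateField.adjoin (IntermediateField.adjoin (ZMod p) {x}) (S : Set Ω), ?_, ?_⟩
    · apply IntermediateField.finiteDimensional_adjoin
      intro s _
      exact Algebra.IsIntegral.isIntegral s
    · intro σ hσ
      change R σ ∈ H
      apply hS _ (hRG σ)
      intro s hs
      rw [hR]
      have h1 := (IntermediateField.mem_fixingSubgroup_iff _ _).1 hσ s
        (IntermediateField.subset_adjoin _ _ hs)
      exact h1
  have hclosed : IsClosed (H' : Set (Ω ≃ₐ[IntermediateField.adjoin (ZMod p) {x}] Ω)) :=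
    Subgroup.isClosed_of_isOpen H' hopen
  have key := InfiniteGalois.fixingSubgroup_fixedField
    (⟨H', hclosed⟩ : ClosedSubgroup (Ω ≃ₐ[IntermediateField.adjoin (ZMod p) {x}] Ω))
  have hγx : γ x = x := mem_Gx.1 hγ
  have hmem : lft γ hγx ∈ H' := by
    have h2 : lft γ hγx ∈ (IntermediateField.fixedField H').fixingSubgroup := by
      rw [IntermediateField.mem_fixingSubgroup_iff]
      intro z hz
      rw [IntermediateField.mem_fixedField_iff] at hz
      rw [lft_apply]
      apply hfix
      intro h hh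
      have h3 := hz (lft h (mem_Gx.1 (hH hh))) (by
        change R (lft h _) ∈ H
        rw [hRl]
        exact hh)
      exact h3
    have h4 : (IntermediateField.fixedField H').fixingSubgroup = H' := key
    rw [h4] at h2
    exact h2
  have h5 : R (lft γ hγx) ∈ H := hmem
  rw [hRl] at h5
  exact h5

end MP7Z.EPP
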