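import Pool.Agent.Lib.MP_7f581e_Z.EPP.Spec

/-!
# The kernel as a module
-/

set_option autoImplicit false

namespace MP7Z.EPP

open Module

namespace KerAux

/-- additive automorphisms of a module over `ZMod p` are linear -/
def rhoOf {p : ℕ} {E A : Type} [Group E] [AddCommGroup A] [Module (ZMod p) A]
    (c : E → (A ≃+ A)) (h1 : ∀ x, c 1 x = x) (h2 : ∀ e e' x, c (e * e') x = c e (c e' x)) :
    E →* (A ≃ₗ[ZMod p] A) where
  toFun e := (c e).toLinearEquiv fun r x => ZMod.map_smul (c e) r x
  map_one' := LinearEquiv.ext fun x => h1 x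
  map_mul' e e' := LinearEquiv.ext fun x => h2 e e' x

/-- conjugation on the kernel -/
def cj {E G : Type} [Group E] [Group G] (f : E →* G) (e : E) : f.ker ≃* f.ker where
  toFun x := ⟨e * (x : E) * e⁻¹, f.normal_ker.conj_mem _ x.2 e⟩
  invFun x := ⟨e⁻¹ * (x : E) * e⁻¹⁻¹, f.normal_ker.conj_mem _ x.2 e⁻¹⟩
  left_inv x := by
    refine Subtype.ext ?_
    change e⁻¹ * (e * (x : E) * e⁻¹) * e⁻¹⁻¹ = (x : E)
    group
  right_inv x := by
    refine Subtype.ext ?_
    change e * (e⁻¹ * (x : E) * e⁻¹⁻¹) * e⁻¹ = (x : E)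
    group
  map_mul' x y := by
    refine Subtype.ext ?_
    change e * ((x : E) * (y : E)) * e⁻¹ = (e * (x : E) * e⁻¹) * (e * (y : E) * e⁻¹)
    group

theorem cj_one {E G : Type} [Group E] [Group G] (f : E →* G) (x : f.ker) : cj f 1 x = x := by
  refine Subtype.ext ?_
  change (1 : E) * (x : E) * (1 : E)⁻¹ = (x : E)
  group

theorem cj_mul {E G : Type} [Group E] [Group G] (f : E →* G) (e e' : E) (x : f.ker) :
    cj f (e * e') x = cj f e (cj f e' x) := by
  refine Subtype.ext ?_
  change (e * e') * (x : E) * (e * e')⁻¹ = e * (e' * (x : E) * e'⁻¹) * e⁻¹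
  group

/-- the second half, for an abstract module -/
theorem second {p : ℕ} [Fact p.Prime] {E G A : Type} [Group E] [Group G] [AddCommGroup A]
    [Module (ZMod p) A] (f : E →* G) (j : Multiplicative A →* E) (ρ : E →* (A ≃ₗ[ZMod p] A))
    (h : IsExt p f j ρ) (hmin : ∀ N : Subgroup E, N.Normal → N ≤ f.ker → N = ⊥ ∨ N = f.ker) :
    ∃ α₀ : A, ∀ l : Dual (ZMod p) A, (∀ e, l (ρ e α₀) = 0) → l = 0 := by
  by_cases htriv : ∀ α : A, α = 0
  · refine ⟨0, fun l _ => ?_⟩
    ext α
    rw [htriv α, map_zero, LinearMap.zero_apply]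
  · push Not at htriv
    obtain ⟨α₀, hα₀⟩ := htriv
    refine ⟨α₀, fun l hl => ?_⟩
    let N : Subgroup E :=
      { carrier := {x | ∃ α : A, (∀ e, l (ρ e α) = 0) ∧ j (Multiplicative.ofAdd α) = x}
        mul_mem' := by
          rintro _ _ ⟨α, h1, rfl⟩ ⟨β, h2, rfl⟩
          refine ⟨α + β, fun e => ?_, ?_⟩
          · rw [map_add, map_add, h1, h2, add_zero]
          · rw [ofAdd_add, map_mul]
        one_mem' := ⟨0, fun e => by rw [map_zero, map_zero], by rw [ofAdd_zero, map_one]⟩
        inv_mem' := by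
          rintro _ ⟨α, h1, rfl⟩
          refine ⟨-α, fun e => ?_, ?_⟩
          · rw [map_neg, map_neg, h1, neg_zero]
          · rw [ofAdd_neg, map_inv] }
    have hN : ∀ x, x ∈ N ↔ ∃ α : A, (∀ e, l (ρ e α) = 0) ∧ j (Multiplicative.ofAdd α) = x :=
      fun x => Iff.rfl
    have hNn : N.Normal := by
      refine ⟨?_⟩
      intro x hx g
      rw [hN] at hx ⊢
      obtain ⟨α, h1, rfl⟩ := hx
      refine ⟨ρ g α, fun e => ?_, (h.conj g α).symm⟩
      have h2 := h1 (e * g)
      rw [map_mul] at h2
      exact h2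
    have hle : N ≤ f.ker := by
      intro x hx
      rw [hN] at hx
      obtain ⟨α, -, rfl⟩ := hx
      exact (h.ker _).mpr ⟨α, rfl⟩
    have hmem : j (Multiplicative.ofAdd α₀) ∈ N := (hN _).mpr ⟨α₀, hl, rfl⟩
    rcases hmin N hNn hle with h' | h'
    · rw [h', Subgroup.mem_bot, ← map_one j] at hmem
      exact absurd (h.inj hmem) hα₀
    · ext α
      have h1 : j (Multiplicative.ofAdd α) ∈ N := by
        rw [h']
        exact (h.ker _).mpr ⟨α, rfl⟩
      rw [hN] at h1
      obtain ⟨β, h2, h3⟩ := h1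
      have h4 : β = α := h.inj h3
      have h5 := h2 1
      rw [map_one, h4] at h5
      exact h5

/-- the first half, for an abstract commutative group -/
theorem first {p : ℕ} {E G N : Type} [Group E] [Group G] [CommGroup N]
    [Module (ZMod p) (Additive N)] (f : E →* G) (hf : Function.Surjective f) (i : N ≃* f.ker) :
    ∃ (j : Multiplicative (Additive N) →* E) (ρ : E →* (Additive N ≃ₗ[ZMod p] Additive N)),
      IsExt p f j ρ := by
  let j : Multiplicative (Additive N) →* E :=
    { toFun := fun x => (i (Additive.toMul (Multiplicative.toAdd x)) : E)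
      map_one' := by
        change ((i 1 : f.ker) : E) = 1
        rw [map_one]
        rfl
      map_mul' := fun x y => by
        change ((i (Additive.toMul (Multiplicative.toAdd x) *
          Additive.toMul (Multiplicative.toAdd y)) : f.ker) : E) = _
        rw [map_mul]
        rfl }
  let ρ : E →* (Additive N ≃ₗ[ZMod p] Additive N) :=
    rhoOf (fun e => ((i.trans (cj f e)).trans i.symm).toAdditive)
      (fun x => by
        change Additive.ofMul (i.symm (cj f 1 (i x.toMul))) = x
        rw [cj_one, i.symm_apply_apply]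
        rfl)
      (fun e e' x => by
        change Additive.ofMul (i.symm (cj f (e * e') (i x.toMul))) =
          Additive.ofMul (i.symm (cj f e (i (i.symm (cj f e' (i x.toMul))))))
        rw [cj_mul, i.apply_symm_apply])
  refine ⟨j, ρ, hf, ?_, ?_, ?_⟩
  · intro x y hxy
    exact i.injective (Subtype.ext hxy)
  · intro e
    constructor
    · intro h
      refine ⟨Additive.ofMul (i.symm ⟨e, h⟩), ?_⟩
      change ((i (i.symm ⟨e, h⟩) : f.ker) : E) = e
      rw [i.apply_symm_apply]
    · rintro ⟨α, rfl⟩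
      exact (i (Additive.toMul α)).2
  · intro e α
    change e * ((i α.toMul : f.ker) : E) * e⁻¹ = ((i (i.symm (cj f e (i α.toMul))) : f.ker) : E)
    rw [i.apply_symm_apply]
    rfl

/-- all together, for an abstract commutative group -/
theorem all {p : ℕ} [Fact p.Prime] {E G : Type} [Group E] [Group G]
    (f : E →* G) (hf : Function.Surjective f)
    (hmin : ∀ N : Subgroup E, N.Normal → N ≤ f.ker → N = ⊥ ∨ N = f.ker) (N : Type) [CommGroup N]
    [Finite N] (i : N ≃* f.ker) (hp : ∀ x : N, x ^ p = 1) :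
    ∃ (A : Type) (_ : AddCommGroup A) (_ : Module (ZMod p) A) (_ : Finite A)
      (j : Multiplicative A →* E) (ρ : E →* (A ≃ₗ[ZMod p] A)),
      IsExt p f j ρ ∧ ∃ α₀ : A, ∀ l : Dual (ZMod p) A, (∀ e, l (ρ e α₀) = 0) → l = 0 := by
  let _ : Module (ZMod p) (Additive N) := AddCommGroup.zmodModule (n := p) fun a => by
    change Additive.ofMul (a.toMul ^ p) = Additive.ofMul 1
    rw [hp]
  obtain ⟨j, ρ, h⟩ := first (p := p) f hf i
  exact ⟨Additive N, inferInstance, inferInstance, inferInstance, j, ρ, h, second f j ρ h hmin⟩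

end KerAux

theorem kerStmt : KerStmt := by
  intro p hp E G _ _ _ f hf hexp hcomm hmin
  exact @KerAux.all p hp E G _ _ f hf hmin f.ker
    { (inferInstance : Group f.ker) with
      mul_comm := fun a b => Subtype.ext (hcomm a a.2 b b.2) } inferInstance (MulEquiv.refl _)
    fun x => Subtype.ext (hexp x x.2)

end MP7Z.EPP
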