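import Pool.Agent.Lib.MP_7f581e_Z.EPP.AS
import Pool.Agent.Lib.MP_7f581e_Z.EPL.Spec

/-!
# The step `PStep p` (assembly)
-/

namespace MP7Z.EPP

open Module Polynomial

namespace PMainAux

open ASAux

theorem exists_y_sep (p : ℕ) [Fact p.Prime] {M W : Type} [Field M] [IsSepClosed M] [CharP M p]
    [AddCommGroup W] [Module (ZMod p) W] (b : W → M) (hb : ∀ l l', b (l + l') = b l + b l') :
    ∃ y : W → M, (∀ l l', y (l + l') = y l + y l') ∧ ∀ l, y l ^ p - y l = b l := by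
  letI : Algebra (ZMod p) M := ZMod.algebra M p
  let bs := Basis.ofVectorSpace (ZMod p) W
  have hroot : ∀ c : M, ∃ r : M, r ^ p - r = c := fun c => by
    have hp : 1 < p := (Fact.out : p.Prime).one_lt
    obtain ⟨r, hr⟩ := IsSepClosed.exists_root (X ^ p - X - C c : M[X]) (by
      have h1 : (X ^ p - X - C c : M[X]).natDegree = p := by
        rw [natDegree_sub_C, natDegree_sub_eq_left_of_natDegree_lt]
        · exact natDegree_X_pow p
        · rw [natDegree_X_pow, natDegree_X]; exact hp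
      intro h
      rw [natDegree_eq_of_degree_eq_some (n := 0) (by rw [h]; rfl)] at h1
      omega) (separable_as p c)
    refine ⟨r, ?_⟩
    rw [IsRoot, eval_sub, eval_sub, eval_pow, eval_X, eval_C, sub_eq_zero] at hr
    exact hr
  choose r hr using fun i => hroot (b (bs i))
  let yL : W →ₗ[ZMod p] M := bs.constr (ZMod p) r
  let bL : W →ₗ[ZMod p] M := (AddMonoidHom.mk' b hb).toZModLinearMap p
  let wL : M →ₗ[ZMod p] M := (wp p M).toZModLinearMap p
  have h : wL ∘ₗ yL = bL := by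
    refine bs.ext fun i => ?_
    change (bs.constr (ZMod p) r (bs i)) ^ p - bs.constr (ZMod p) r (bs i) = b (bs i)
    rw [bs.constr_basis, hr]
  exact ⟨yL, fun l l' => map_add yL l l', fun l => LinearMap.congr_fun h l⟩

end PMainAux

open PMainAux ASAux in
theorem pStep (hK : KerStmt) (hA : ActLStmt) (hT : ThetaStmt) (hC : CocStmt) (hTw : TwistStmt)
    (hP : PoleStmt) (hR : EPL.RegGStmt) (p : ℕ) [Fact p.Prime] : PStep p := by
  intro Ω _ _ x G _ _ ψ hψ E _ _ f hf hexp hcomm hmin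
  classical
  obtain ⟨A, _, _, _, j, ρ, hext, α₀, hα₀⟩ := hK p E G f hf hexp hcomm hmin
  haveI : Fintype G := Fintype.ofFinite G
  haveI : IsSepClosed Ω := hψ.stage.sepClosed
  haveI : CharP Ω p := charP_of_injective_algebraMap (algebraMap (ZMod p) Ω).injective p
  have hsurj : Function.Surjective ψ := fun g => by
    obtain ⟨γ, -, h⟩ := hψ.reg g
    exact ⟨γ, h⟩
  obtain ⟨L, act, hL, hact, hfaith⟩ := hA p Ω x hψ.stage G ψ hψ.fin hsurj
  haveI : CharP L p := L.subtype.charP L.subtype.injective p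
  obtain ⟨θ, -, hθ1, hθ2⟩ := hT L G act (⊤ : Subfield L) p (io p L) (fun _ _ _ => trivial)
    (fun g hg => hfaith g fun z => hg z trivial)
  obtain ⟨a, b, ha1, ha2, ha3, hb1, hb2, -⟩ := hC p E G A L (io p L) f j ρ hext act θ hθ1
  obtain ⟨v, hv1, hv2, hv3, -⟩ := hTw p E G A L (io p L) f j ρ hext act θ hθ2 α₀ hα₀
  -- the elements of `L` as elements of `Ω`
  have hLmem : ∀ (z : L) (γ : Gx p x), ψ γ = 1 → (γ : Ω ≃ₐ[ZMod p] Ω) (z : Ω) = z := fun z γ hγ =>
    (hL z).1 z.2 γ hγ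
  -- the twist
  have hpole : ∃ h : L, (∀ g, act g h = h) ∧ ((∀ l : Dual (ZMod p) A, l = 0) ∨
      ∃ l₀ : Dual (ZMod p) A, ∀ z : Ω, (∀ γ : Gx p x,
        (γ : Ω ≃ₐ[ZMod p] Ω) ∈ Fx p (Cst p Ω : Set Ω) → ψ γ = 1 →
          (γ : Ω ≃ₐ[ZMod p] Ω) z = z) → z ^ p - z ≠ ((b l₀ + h * v l₀ : L) : Ω)) := by
    by_cases h0 : ∀ l : Dual (ZMod p) A, l = 0
    · exact ⟨0, fun g => map_zero _, Or.inl h0⟩
    · push Not at h0
      obtain ⟨l₀, hl₀⟩ := h0
      obtain ⟨h, hh1, hh2⟩ := hP p Ω x hψ.stage G ψ hψ.fin (b l₀) (v l₀) (hLmem _) (hLmem _)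
        (fun h => hv3 l₀ hl₀ (Subtype.ext h))
      have hhL : h ∈ L := (hL h).2 fun γ _ => hh1 γ γ.2
      refine ⟨⟨h, hhL⟩, fun g => ?_, Or.inr ⟨l₀, hh2⟩⟩
      obtain ⟨γ, rfl⟩ := hsurj g
      apply Subtype.ext
      rw [hact]
      exact hh1 γ γ.2
  obtain ⟨h, hh1, hh2⟩ := hpole
  have hBadd : ∀ l l', ((b (l + l') + h * v (l + l') : L) : Ω) =
      ((b l + h * v l : L) : Ω) + ((b l' + h * v l' : L) : Ω) := fun l l' => by
    rw [hb1, hv1, mul_add]
    push_cast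
    ring
  obtain ⟨y, hy1, hy2⟩ := exists_y_sep p (fun l => ((b l + h * v l : L) : Ω)) hBadd
  have hBact : ∀ (γ : Gx p x) (e : E), f e = ψ γ → ∀ l,
      (γ : Ω ≃ₐ[ZMod p] Ω) (((b (l ∘ₗ (ρ e : A →ₗ[ZMod p] A)) +
        h * v (l ∘ₗ (ρ e : A →ₗ[ZMod p] A)) : L) : Ω)) =
      ((b l + h * v l : L) : Ω) + ((a e l : Ω) ^ p - (a e l : Ω)) := fun γ e he l => by
    rw [← hact, ← he, map_add, map_mul, hh1, hb2, hv2]
    push_cast
    ring
  -- `ρ` is trivial on `A`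
  have hρj : ∀ α, ρ (j (Multiplicative.ofAdd α)) = 1 := fun α => by
    ext β
    have h1 := hext.conj (j (Multiplicative.ofAdd α)) β
    rw [← map_mul, mul_comm, map_mul, mul_assoc, mul_inv_cancel, mul_one] at h1
    exact (Multiplicative.ofAdd.injective (hext.inj h1)).symm
  have hfj : ∀ α, f (j (Multiplicative.ofAdd α)) = 1 := fun α => (hext.ker _).2 ⟨α, rfl⟩
  have hcj : ∀ (α : A) (e : E) (l : Dual (ZMod p) A), l ∘ₗ (ρ (j (Multiplicative.ofAdd α) * e) : A →ₗ[ZMod p] A) =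
      l ∘ₗ (ρ e : A →ₗ[ZMod p] A) := fun α e l => by
    rw [map_mul, hρj, one_mul]
  have haj : ∀ (α : A) (e : E) (l : Dual (ZMod p) A), a (j (Multiplicative.ofAdd α) * e) l = io p L (l α) + a e l := fun α e l => by
    rw [ha1, ha3, hfj, map_one, hρj]
    rfl
  -- the relation
  let R : Gx p x → E → Prop := fun γ e => f e = ψ γ ∧ ∀ l,
    (γ : Ω ≃ₐ[ZMod p] Ω) (y (l ∘ₗ (ρ e : A →ₗ[ZMod p] A))) = y l + (a e l : Ω)
  have hRex : ∀ γ, ∃ e, R γ e := fun γ => by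
    obtain ⟨e, he⟩ := hf (ψ γ)
    have h1 : ∀ l, ∃ c, io p Ω c = (γ : Ω ≃ₐ[ZMod p] Ω) (y (l ∘ₗ (ρ e : A →ₗ[ZMod p] A))) -
        y l - (a e l : Ω) := fun l => by
      apply exists_io
      rw [wp_sub, wp_sub, ← map_pow (γ : Ω ≃ₐ[ZMod p] Ω), ← map_sub (γ : Ω ≃ₐ[ZMod p] Ω), hy2, hy2,
        hBact γ e he]
      ring
    choose d hd using h1
    have hdadd : ∀ l l', d (l + l') = d l + d l' := fun l l' => by
      apply (io p Ω).injective
      rw [map_add, hd, hd, hd, LinearMap.add_comp, hy1, hy1, ha2, map_add]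
      push_cast
      ring
    let D : Dual (ZMod p) (Dual (ZMod p) A) := (AddMonoidHom.mk' d hdadd).toZModLinearMap p
    haveI : Module.Finite (ZMod p) A := Module.Finite.of_finite
    obtain ⟨α, hα⟩ := (bijective_dual_eval (ZMod p) A).2 D
    have hα' : ∀ l, d l = l α := fun l => (LinearMap.congr_fun hα l).symm
    refine ⟨j (Multiplicative.ofAdd α) * e, ?_, fun l => ?_⟩
    · rw [map_mul, hfj, one_mul, he]
    · rw [hcj, haj]
      have h2 := hd l
      rw [hα' l] at h2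
      have h3 : ((io p L (l α) : L) : Ω) = io p Ω (l α) := io_map p L.subtype _
      push_cast
      rw [h3, h2]
      ring
  have hRun : ∀ γ e₁ e₂, R γ e₁ → R γ e₂ → e₁ = e₂ := fun γ e₁ e₂ h1 h2 => by
    obtain ⟨α, hα⟩ := (hext.ker (e₂ * e₁⁻¹)).1 (by rw [map_mul, map_inv, h1.1, h2.1, mul_inv_cancel])
    have he : e₂ = j (Multiplicative.ofAdd α) * e₁ := by rw [hα, inv_mul_cancel_right]
    have hα0 : α = 0 := by
      rw [← Module.forall_dual_apply_eq_zero_iff (ZMod p)]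
      intro l
      have h3 := h2.2 l
      rw [he, hcj, haj, h1.2 l] at h3
      have h4 : ((io p L (l α) : L) : Ω) = 0 := by
        push_cast at h3
        linear_combination -h3
      have h5 : io p L (l α) = 0 := Subtype.ext h4
      exact (map_eq_zero _).1 h5
    rw [he, hα0]
    exact (by rw [ofAdd_zero, map_one, one_mul] : j (Multiplicative.ofAdd 0) * e₁ = e₁).symm
  have hRmul : ∀ γ γ' e e', R γ e → R γ' e' → R (γ * γ') (e * e') := fun γ γ' e e' h1 h2 => by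
    refine ⟨by rw [map_mul, map_mul, h1.1, h2.1], fun l => ?_⟩
    have h3 : l ∘ₗ (ρ (e * e') : A →ₗ[ZMod p] A) =
        (l ∘ₗ (ρ e : A →ₗ[ZMod p] A)) ∘ₗ (ρ e' : A →ₗ[ZMod p] A) := by
      rw [map_mul]; rfl
    rw [h3, ha1]
    change (γ : Ω ≃ₐ[ZMod p] Ω) ((γ' : Ω ≃ₐ[ZMod p] Ω) _) = _
    rw [h2.2, map_add, h1.2, h1.1, ← hact]
    push_cast
    ring
  have ha0 : ∀ l, a 1 l = 0 := fun l => by
    have h1 := haj 0 1 l
    rw [ofAdd_zero, map_one, one_mul, map_zero, map_zero] at h1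
    have h2 := ha1 1 1 l
    rw [map_one, map_one, map_one, mul_one] at h2
    exact left_eq_add.1 h2
  choose e he using hRex
  let ψ' : Gx p x →* E := MonoidHom.mk' e fun γ γ' =>
    hRun _ _ _ (he _) (hRmul _ _ _ _ (he γ) (he γ'))
  have hfψ : ∀ γ, f (ψ' γ) = ψ γ := fun γ => (he γ).1
  have hψ1 : ∀ γ, R γ 1 → ψ' γ = 1 := fun γ h => hRun _ _ _ (he γ) h
  refine ⟨ψ', ⟨hψ.stage, ?_, ?_, ?_⟩, hfψ⟩
  · -- finite level
    obtain ⟨S, hS⟩ := hψ.fin
    haveI : Finite (Dual (ZMod p) A) := by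
      haveI : Module.Finite (ZMod p) A := Module.Finite.of_finite
      exact Module.finite_of_finite (ZMod p)
    haveI : Fintype (Dual (ZMod p) A) := Fintype.ofFinite _
    refine ⟨S ∪ Finset.univ.image y, fun γ hγ => hψ1 γ ⟨?_, fun l => ?_⟩⟩
    · rw [map_one]
      exact (hS γ fun s hs => hγ s (Finset.mem_union_left _ hs)).symm
    · rw [map_one, ha0]
      have h1 : l ∘ₗ ((1 : A ≃ₗ[ZMod p] A) : A →ₗ[ZMod p] A) = l := rfl
      rw [h1, hγ _ (Finset.mem_union_right _ (Finset.mem_image_of_mem _ (Finset.mem_univ l)))]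
      push_cast
      ring
  · -- regularity
    have hI : ((Fx p (Cst p Ω : Set Ω)).comap (Gx p x).subtype).map ψ' = ⊤ := by
      rcases hh2 with h0 | ⟨l₀, hl₀⟩
      · rw [eq_top_iff]
        intro e₁ _
        obtain ⟨γ, hγ, hγ'⟩ := hψ.reg (f e₁)
        refine ⟨γ, hγ, ?_⟩
        obtain ⟨α, hα⟩ := (hext.ker (e₁ * (ψ' γ)⁻¹)).1
          (by rw [map_mul, map_inv, hfψ, hγ', mul_inv_cancel])
        have hα0 : α = 0 := by
          rw [← Module.forall_dual_apply_eq_zero_iff (ZMod p)]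
          intro l
          rw [h0 l]; rfl
        rw [hα0, ofAdd_zero, map_one] at hα
        exact (mul_inv_eq_one.1 hα.symm).symm
      · refine hR E G f _ hcomm hmin (fun e₁ => ?_) ?_
        · obtain ⟨γ, hγ, hγ'⟩ := hψ.reg (f e₁)
          exact ⟨ψ' γ, ⟨γ, hγ, rfl⟩, by rw [hfψ, hγ']⟩
        · by_contra hcon
          push Not at hcon
          refine hl₀ (y l₀) (fun γ hγ hγ1 => ?_) (hy2 l₀)
          have h1 : ψ' γ = 1 := hcon _ ⟨γ, hγ, rfl⟩ (by rw [MonoidHom.mem_ker, hfψ, hγ1])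
          have h2 := (he γ).2 l₀
          have h3 : e γ = 1 := h1
          rw [h3, map_one, ha0] at h2
          push_cast at h2
          rw [add_zero] at h2
          exact h2
    intro g
    have h1 : g ∈ ((Fx p (Cst p Ω : Set Ω)).comap (Gx p x).subtype).map ψ' := by
      rw [hI]; trivial
    obtain ⟨γ, hγ, hγ'⟩ := h1
    exact ⟨γ, hγ, hγ'⟩
  · -- the invariant
    intro ℓ hℓ hℓp V hV hbad γ hγ hdvd
    have h1 : orderOf (ψ' γ) ∣ orderOf (ψ γ) * p := by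
      apply orderOf_dvd_of_pow_eq_one
      rw [pow_mul]
      apply hexp
      rw [MonoidHom.mem_ker, map_pow, hfψ, pow_orderOf_eq_one]
    rcases (Nat.Prime.dvd_mul hℓ).1 (hdvd.trans h1) with h2 | h2
    · exact hψ.inv ℓ hℓ hℓp V hV hbad γ hγ h2
    · exact hℓp ((Nat.prime_dvd_prime_iff_eq hℓ (Fact.out : p.Prime)).1 h2)

end MP7Z.EPP
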