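import Pool.Agent.Lib.MP_7f581e_Z.EPP.Spec

/-!
# EPP/Pole: a twist which is not trivialized by the geometric kernel
-/

namespace MP7Z.EPP

namespace PoleAux

open IntermediateField

/-- An element algebraic over `𝔽_p` is fixed by a power of the Frobenius. -/
theorem exists_pow {p : ℕ} [Fact p.Prime] {Ω : Type} [Field Ω] [Algebra (ZMod p) Ω] {c : Ω}
    (hc : IsAlgebraic (ZMod p) c) : ∃ n : ℕ, 0 < n ∧ c ^ p ^ n = c := by
  have hfd : FiniteDimensional (ZMod p) (adjoin (ZMod p) {c}) :=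
    adjoin.finiteDimensional hc.isIntegral
  have hfin : Finite (adjoin (ZMod p) {c}) := Module.finite_of_finite (ZMod p)
  let _ := Fintype.ofFinite (adjoin (ZMod p) {c})
  have hcard : Fintype.card (adjoin (ZMod p) {c}) =
      p ^ Module.finrank (ZMod p) (adjoin (ZMod p) {c}) := by
    rw [Module.card_eq_pow_finrank (K := ZMod p), ZMod.card]
  refine ⟨Module.finrank (ZMod p) (adjoin (ZMod p) {c}), Module.finrank_pos, ?_⟩
  have h1 := FiniteField.pow_card (AdjoinSimple.gen (ZMod p) c)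
  rw [hcard] at h1
  have h2 := congrArg (algebraMap (adjoin (ZMod p) {c}) Ω) h1
  rwa [map_pow, AdjoinSimple.algebraMap_gen] at h2

theorem adjoin_gen_eq_top {𝕜 Ω : Type} [Field 𝕜] [Field Ω] [Algebra 𝕜 Ω] (x : Ω) :
    adjoin 𝕜 {AdjoinSimple.gen 𝕜 x} = ⊤ := by
  apply lift_injective
  rw [lift_adjoin_simple, lift_top]
  rfl

theorem pord_sub_const {𝕜 Ω : Type} [Field 𝕜] [IsAlgClosed 𝕜] [Field Ω] [Algebra 𝕜 Ω] {x : Ω}
    [IsCurveField 𝕜 (adjoin 𝕜 {x})] (hx : Transcendental 𝕜 (AdjoinSimple.gen 𝕜 x))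
    (w : Place 𝕜 (adjoin 𝕜 {x})) (c : 𝕜)
    (h : 0 < w.ord (AdjoinSimple.gen 𝕜 x - algebraMap 𝕜 (adjoin 𝕜 {x}) c)) :
    w.pord (AdjoinSimple.gen 𝕜 x - algebraMap 𝕜 (adjoin 𝕜 {x}) c) = 1 := by
  set y := AdjoinSimple.gen 𝕜 x - algebraMap 𝕜 (adjoin 𝕜 {x}) c with hy
  have htop : adjoin 𝕜 {y} = ⊤ := by
    rw [hy, adjoin_sub_const, adjoin_gen_eq_top]
  have hyt : Transcendental 𝕜 y := by
    intro h'
    apply hx
    have h1 := h'.add (isAlgebraic_algebraMap c)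
    rwa [hy, sub_add_cancel] at h1
  have hsep : Algebra.IsSeparable (adjoin 𝕜 {y}) (adjoin 𝕜 {x}) := by
    rw [htop]
    exact ⟨fun z => isSeparable_algebraMap (⟨z, mem_top⟩ : (⊤ : IntermediateField 𝕜 (adjoin 𝕜 {x})))⟩
  obtain ⟨S, hS, hsum⟩ := sum_zeros hyt
  rw [htop, IntermediateField.finrank_top] at hsum
  have hpos : ∀ v ∈ S, 0 < (v.ord y).untopD 0 := by
    intro v hv
    have hy0 : y ≠ 0 := by
      intro h0
      exact hyt (by rw [h0]; exact isAlgebraic_zero)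
    have h1 : (0 : ℤ) < v.pord y := by
      rw [v.lt_pord_iff hy0]
      exact (hS v).1 hv
    exact h1
  have hw : w ∈ S := (hS w).2 h
  have h1 : (w.ord y).untopD 0 ≤ ∑ v ∈ S, (v.ord y).untopD 0 :=
    Finset.single_le_sum (fun v hv => (hpos v hv).le) hw
  have h2 := hpos w hw
  have h3 : w.pord y = (w.ord y).untopD 0 := rfl
  rw [h3]
  push_cast at hsum
  omega

theorem pord_inv_pow {𝕜 K : Type} [Field 𝕜] [IsAlgClosed 𝕜] [Field K] [Algebra 𝕜 K] {p : ℕ}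
    [Fact p.Prime] [CharP K p] (w : Place 𝕜 K) {X : K} {c : 𝕜} {n : ℕ} (hn : 0 < n)
    (hc : c ^ p ^ n = c) (h : w.pord (X - algebraMap 𝕜 K c) = 1) :
    X ^ p ^ n - X ≠ 0 ∧ w.pord (X ^ p ^ n - X)⁻¹ = -1 := by
  set t := X - algebraMap 𝕜 K c with ht
  have ht0 : t ≠ 0 := by
    intro h0
    rw [h0, Place.pord, AddValuation.map_zero] at h
    exact zero_ne_one h
  have h1 : X ^ p ^ n - X = -t + t ^ p ^ n := by
    rw [ht, sub_pow_char_pow, ← map_pow, hc]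
    ring
  have h2 : w.pord (-t) = 1 := by
    have : w.pord (-t) = w.pord t := by
      unfold Place.pord
      rw [AddValuation.map_neg]
    rw [this, h]
  have hp : 1 < p ^ n := Nat.one_lt_pow hn.ne' (Fact.out : p.Prime).one_lt
  have h3 : w.pord (t ^ p ^ n) = ((p ^ n : ℕ) : ℤ) := by
    rw [w.pord_pow ht0, h, mul_one]
  have h4 := w.pord_add (neg_ne_zero.2 ht0) (pow_ne_zero (p ^ n) ht0) (by
    rw [h2, h3]
    exact_mod_cast hp)
  rw [← h1, h2] at h4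
  exact ⟨h4.1, by rw [w.pord_inv h4.1, h4.2]⟩

theorem ne_of_pole {𝕜 K : Type} [Field 𝕜] [IsAlgClosed 𝕜] [Field K] [Algebra 𝕜 K] {p : ℕ}
    (hp : 1 < p) (w : Place 𝕜 K) {g b h v : K} (hb : 0 ≤ w.ord b) (hv : w.ord v = 0)
    (hh : h ≠ 0) (hh1 : w.pord h = -1) : g ^ p - g ≠ b + h * v := by
  intro heq
  have hhv : w.ord (h * v) = ((-1 : ℤ) : WithTop ℤ) := by
    rw [AddValuation.map_mul, hv, add_zero, w.ord_eq_pord hh, hh1]
  have h1 : w.ord (b + h * v) = ((-1 : ℤ) : WithTop ℤ) := by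
    rw [← hhv]
    apply AddValuation.map_add_eq_of_lt_right
    rw [hhv]
    exact lt_of_lt_of_le (by exact_mod_cast (show (-1 : ℤ) < 0 by norm_num)) hb
  rw [← heq] at h1
  by_cases hg : 0 ≤ w.ord g
  · have h2 : 0 ≤ w.ord (g ^ p - g) := by
      refine le_trans (le_min ?_ hg) (AddValuation.map_sub w.ord _ _)
      rw [AddValuation.map_pow]
      exact nsmul_nonneg hg p
    rw [h1] at h2
    have h3 : (0 : ℤ) ≤ -1 := by exact_mod_cast h2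
    omega
  · have hg0 : g ≠ 0 := by
      rintro rfl
      exact hg (by rw [AddValuation.map_zero]; exact le_top)
    have h2 : w.pord g < 0 := by
      by_contra h3
      push Not at h3
      exact hg ((w.le_pord_iff hg0 0).1 h3)
    have h3 : w.pord (-g) = w.pord g := by
      unfold Place.pord
      rw [AddValuation.map_neg]
    have hp' : (1 : ℤ) < p := by exact_mod_cast hp
    have h4 := w.pord_add (pow_ne_zero p hg0) (neg_ne_zero.2 hg0) (by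
      rw [h3, w.pord_pow hg0]
      nlinarith)
    rw [← sub_eq_add_neg, w.pord_pow hg0] at h4
    have h5 : w.pord (g ^ p - g) = -1 := by
      rw [w.pord_eq_iff h4.1, h1]
    rw [h4.2] at h5
    nlinarith

end PoleAux

open PoleAux IntermediateField in
theorem poleStmt (hCst : CstStmt) (hLvl : LvlStmt) (hBel : BelStmt) (hRes : ResStmt)
    (hGal : GalStmt) (hRam : RamStmt) (hSpl : SplStmt) : PoleStmt := by
  classical
  intro p _ Ω _ _ x hx G _ _ ψ hψ b v hb hv hv0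
  have := hCst p Ω x hx
  obtain ⟨hLvl1, -⟩ := hLvl p Ω x hx
  -- the subgroup
  set H : Subgroup (Ω ≃ₐ[ZMod p] Ω) :=
    (ψ.ker.map (Gx p x).subtype) ⊓ Fx p (Cst p Ω : Set Ω) with hH
  have hHm : ∀ γ : Gx p x, (γ : Ω ≃ₐ[ZMod p] Ω) ∈ Fx p (Cst p Ω : Set Ω) → ψ γ = 1 →
      (γ : Ω ≃ₐ[ZMod p] Ω) ∈ H := fun γ h1 h2 => ⟨⟨γ, h2, rfl⟩, h1⟩
  have hHm' : ∀ γ ∈ H, ∃ γ' : Gx p x, (γ' : Ω ≃ₐ[ZMod p] Ω) = γ ∧ ψ γ' = 1 ∧
      γ ∈ Fx p (Cst p Ω : Set Ω) := by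
    rintro γ ⟨⟨γ', h1, h2⟩, h3⟩
    exact ⟨γ', h2, h1, h3⟩
  obtain ⟨S, hS⟩ := hψ
  obtain ⟨K, hK, hKH, hKf, -⟩ := hGal p Ω x hx H S (by
      intro γ hγ
      obtain ⟨γ', rfl, h1, h2⟩ := hHm' γ hγ
      intro a ha
      rcases Set.mem_insert_iff.1 ha with rfl | ha
      · exact mem_Gx.1 γ'.2
      · exact h2 a ha) (by
      intro γ hγ
      have h1 : γ ∈ Gx p x := mem_Gx.2 (hγ x (Or.inl (Set.mem_insert _ _)))
      refine hHm ⟨γ, h1⟩ (fun a ha => hγ a (Or.inl (Set.mem_insert_of_mem _ ha))) ?_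
      exact hS ⟨γ, h1⟩ fun s hs => hγ s (Or.inr hs))
  -- the level 𝔽(x)
  set K₀ : IntermediateField (Cst p Ω) Ω := adjoin (Cst p Ω) {x} with hK₀
  have hxK₀ : x ∈ K₀ := mem_adjoin_simple_self (Cst p Ω) x
  have hK₀l : IsLevel p x K₀ := ⟨hxK₀, fg_adjoin_of_finite (Set.finite_singleton x)⟩
  have hle : K₀ ≤ K := by
    rw [hK₀, adjoin_simple_le_iff]
    exact hK.mem
  obtain ⟨hKc, hKt, hKs⟩ := hLvl1 K hK
  obtain ⟨hK₀c, hK₀t, hK₀s⟩ := hLvl1 K₀ hK₀l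
  -- the place
  obtain ⟨V, hV, hxV, hVT, hVdec⟩ := hSpl p Ω x hx G ψ ⟨S, hS⟩ (({b, v} : Finset Ω).erase 0)
    (fun t ht => Finset.ne_of_mem_erase ht)
  have hvV : V.valuation v = 1 := hVT v (Finset.mem_erase.2 ⟨hv0, by simp⟩)
  have hbV : b ∈ V := by
    by_cases hb0 : b = 0
    · rw [hb0]; exact V.zero_mem
    · rw [← V.valuation_le_one_iff, hVT b (Finset.mem_erase.2 ⟨hb0, by simp⟩)]
  obtain ⟨-, -, hRes3, -⟩ := hRes p Ω x hx V hV
  obtain ⟨c, hcC, hcV, -⟩ := hRes3 x hxV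
  obtain ⟨n, hn, hcn⟩ := exists_pow (p := p) (mem_algebraicClosure_iff.1 hcC)
  obtain ⟨w, hw, -, hwpos⟩ := hBel p Ω x hx K hK V hV
  obtain ⟨w₀, hw₀, -, hw₀pos⟩ := hBel p Ω x hx K₀ hK₀l V hV
  -- `x - c` has order one at `w₀`
  have h1 : w₀.pord (AdjoinSimple.gen (Cst p Ω) x -
      algebraMap (Cst p Ω) K₀ ⟨c, hcC⟩) = 1 := by
    refine pord_sub_const hK₀t w₀ ⟨c, hcC⟩ ?_
    rw [hw₀pos]
    exact hcV
  -- `x - c` has order one at `w`
  have h2 : w.pord ((⟨x, hK.mem⟩ : K) - algebraMap (Cst p Ω) K ⟨c, hcC⟩) = 1 := by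
    rw [← h1]
    refine (hRam p Ω x hx K₀ K hle hK₀l hK V hV w₀ w hw₀ hw).2 ?_
      (AdjoinSimple.gen (Cst p Ω) x - algebraMap (Cst p Ω) K₀ ⟨c, hcC⟩)
    rintro γ ⟨hγ1, hγ2⟩
    rw [hKH]
    have h3 : γ ∈ Gx p x := mem_Gx.2 (hγ1 x hxK₀)
    exact hHm ⟨γ, h3⟩ (fun a ha => hγ1 a (K₀.algebraMap_mem ⟨a, ha⟩)) (hVdec ⟨γ, h3⟩ hγ2)
  have : CharP K p := charP_of_injective_algebraMap (algebraMap (ZMod p) K).injective p
  obtain ⟨h3, h4⟩ := pord_inv_pow (p := p) w hn (Subtype.ext hcn) h2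
  -- membership in `K`
  have hmemK : ∀ g : Ω, (∀ γ : Gx p x, (γ : Ω ≃ₐ[ZMod p] Ω) ∈ Fx p (Cst p Ω : Set Ω) →
      ψ γ = 1 → (γ : Ω ≃ₐ[ZMod p] Ω) g = g) → g ∈ K := by
    intro g hg
    rw [hKf]
    intro γ hγ
    obtain ⟨γ', rfl, h5, h6⟩ := hHm' γ hγ
    exact hg γ' h6 h5
  have hbK : b ∈ K := hmemK b fun γ _ h => hb γ h
  have hvK : v ∈ K := hmemK v fun γ _ h => hv γ h
  have hwb : 0 ≤ w.ord (⟨b, hbK⟩ : K) := (hw ⟨b, hbK⟩).2 hbV
  have hwv : w.ord (⟨v, hvK⟩ : K) = 0 := by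
    apply le_antisymm
    · by_contra h5
      push Not at h5
      have h6 := (hwpos ⟨v, hvK⟩).1 h5
      rw [hvV] at h6
      exact lt_irrefl _ h6
    · exact (hw ⟨v, hvK⟩).2 ((V.valuation_le_one_iff v).1 hvV.le)
  refine ⟨(x ^ p ^ n - x)⁻¹, ?_, ?_⟩
  · intro γ hγ
    rw [map_inv₀, map_sub, map_pow, mem_Gx.1 hγ]
  · intro g hg heq
    have hgK : g ∈ K := hmemK g hg
    refine ne_of_pole (Fact.out : p.Prime).one_lt w (g := (⟨g, hgK⟩ : K)) hwb hwv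
      (inv_ne_zero h3) h4 ?_
    apply Subtype.ext
    exact heq

end MP7Z.EPP
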