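import Pool.Agent.Lib.MP_7f581e_Z.EPP.Spec

set_option autoImplicit false

/-! An element of trace one with `ZMod p`-independent conjugates. -/

namespace MP7Z.EPP

open Module

theorem thetaStmt : ThetaStmt := by
  intro K G _ _ _ act L p _ ι hL hf
  letI : MulSemiringAction G L :=
    { smul := fun g x => ⟨act g x, hL g x x.2⟩
      one_smul := fun x => Subtype.ext (by
        show act 1 (x : K) = x
        rw [map_one]
        rfl)
      mul_smul := fun g g' x => Subtype.ext (by
        show act (g * g') (x : K) = act g (act g' x)
        rw [map_mul]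
        rfl)
      smul_zero := fun g => Subtype.ext (map_zero (act g))
      smul_add := fun g x y => Subtype.ext (map_add (act g) (x : K) (y : K))
      smul_one := fun g => Subtype.ext (map_one (act g))
      smul_mul := fun g x y => Subtype.ext (map_mul (act g) (x : K) (y : K)) }
  have hsm : ∀ (g : G) (x : L), ((g • x : L) : K) = act g x := fun _ _ => rfl
  haveI : FaithfulSMul G L := ⟨by
    intro g g' h
    have h1 : g'⁻¹ * g = 1 := hf _ fun x hx => by
      have h2 := congrArg Subtype.val (h (⟨x, hx⟩ : L))
      have h3 : act g x = act g' x := h2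
      have h4 : act (g'⁻¹ * g) x = act g'⁻¹ (act g x) := by
        rw [map_mul]
        rfl
      have h5 : act (g'⁻¹ * g') x = act g'⁻¹ (act g' x) := by
        rw [map_mul]
        rfl
      rw [h4, h3, ← h5, inv_mul_cancel, map_one]
      rfl
    have h6 := inv_mul_eq_one.1 h1
    exact h6.symm⟩
  obtain ⟨x, hx⟩ := exists_linearIndependent_algEquiv_apply (FixedPoints.subfield G L) L
  have hx' : LinearIndependent (FixedPoints.subfield G L) fun g : G => g • x :=
    hx.comp (FixedPoints.toAlgAutMulEquiv G L) (MulEquiv.injective _)
  rw [Fintype.linearIndependent_iff] at hx'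
  set t : L := ∑ g : G, g • x with ht
  have ht0 : t ≠ 0 := by
    intro h0
    have h1 := hx' (fun _ => 1) (by
      simp only [one_smul]
      exact h0) 1
    exact one_ne_zero h1
  have htf : ∀ g : G, g • t = t := by
    intro g
    rw [ht, Finset.smul_sum]
    refine Fintype.sum_equiv (Equiv.mulLeft g) _ _ fun σ => ?_
    rw [smul_smul]
    rfl
  have hdiv : ∀ g : G, g • (x / t) = (g • x) / t := by
    intro g
    have h1 : g • (x / t) * t = g • x := by
      calc g • (x / t) * t = g • (x / t) * (g • t) := by rw [htf g]
        _ = g • (x / t * t) := (smul_mul' g (x / t) t).symm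
        _ = g • x := by rw [div_mul_cancel₀ _ ht0]
    rw [eq_div_iff ht0]
    exact h1
  refine ⟨((x / t : L) : K), (x / t : L).2, ?_, ?_⟩
  · have h1 : ∑ g : G, act g ((x / t : L) : K) = ((∑ g : G, g • (x / t) : L) : K) := by
      push_cast
      rfl
    rw [h1]
    simp only [hdiv]
    rw [← Finset.sum_div, ← ht, div_self ht0]
    rfl
  · intro n hn h0
    apply hn
    funext g
    have hι : ∀ c : ZMod p, ι c = ((c.val : ℕ) : K) := by
      intro c
      conv_lhs => rw [← ZMod.natCast_zmod_val c]
      rw [map_natCast]
    have e1 : ∀ m : ℕ, ((m : L) : K) = (m : K) := fun m => map_natCast L.subtype m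
    have e2 : ∀ (m : ℕ) (y : L), (m : FixedPoints.subfield G L) • y = (m : L) * y := by
      intro m y
      rw [Subfield.smul_def]
      simp
    have e3 : ∀ m : ℕ, (((m : FixedPoints.subfield G L) : L) : K) = (m : K) := by
      intro m
      simp
    have h1 : ((∑ g : G, ((n g).val : L) * (g • (x / t)) : L) : K) = 0 := by
      rw [← h0, AddSubmonoidClass.coe_finsetSum]
      refine Finset.sum_congr rfl fun g _ => ?_
      rw [hι, Subfield.coe_mul, hsm, e1]
    have h2 : ∑ g : G, ((n g).val : L) * (g • (x / t)) = 0 := Subtype.ext h1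
    have h3 : ∑ g : G, ((n g).val : FixedPoints.subfield G L) • (g • x) = 0 := by
      have h4 : ∑ g : G, ((n g).val : FixedPoints.subfield G L) • (g • x) =
          (∑ g : G, ((n g).val : L) * (g • (x / t))) * t := by
        rw [Finset.sum_mul]
        refine Finset.sum_congr rfl fun g _ => ?_
        rw [hdiv, mul_assoc, div_mul_cancel₀ _ ht0, e2]
      rw [h4, h2, zero_mul]
    have h5 := hx' (fun g => ((n g).val : FixedPoints.subfield G L)) h3 g
    have h6 : (((n g).val : ℕ) : K) = 0 := by
      have h7 := congrArg (fun y : FixedPoints.subfield G L => ((y : L) : K)) h5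
      have h8 : ((((n g).val : FixedPoints.subfield G L) : L) : K) = 0 := h7
      rw [e3] at h8
      exact h8
    rw [← hι] at h6
    exact (map_eq_zero ι).1 h6

end MP7Z.EPP
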