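import Pool.Agent.Lib.MP_7f581e_Z.EPP.Spec

set_option autoImplicit false

/-! A nowhere vanishing invariant element of `A ⊗ K`. -/

namespace MP7Z.EPP

open Module

namespace TwistAux

variable {p : ℕ} {E G A : Type} [Group E] [Group G] [AddCommGroup A] [Module (ZMod p) A]
  {f : E →* G} {j : Multiplicative A →* E} {ρ : E →* (A ≃ₗ[ZMod p] A)}

theorem rho_j (hE : IsExt p f j ρ) (β α : A) : ρ (j (Multiplicative.ofAdd β)) α = α := by
  have h1 := hE.conj (j (Multiplicative.ofAdd β)) α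
  rw [← map_mul, ← map_inv, ← map_mul, mul_comm (Multiplicative.ofAdd β), mul_assoc,
    mul_inv_cancel, mul_one] at h1
  exact (Multiplicative.ofAdd.injective (hE.inj h1)).symm

theorem rho_eq (hE : IsExt p f j ρ) (e e' : E) (h : f e = f e') (α : A) : ρ e α = ρ e' α := by
  have h1 : f (e * e'⁻¹) = 1 := by
    rw [map_mul, map_inv, h, mul_inv_cancel]
  obtain ⟨β, hβ⟩ := (hE.ker _).1 h1
  have h2 : e = j (Multiplicative.ofAdd β) * e' := by
    rw [hβ]
    group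
  rw [h2, map_mul, LinearEquiv.mul_apply, rho_j hE]

end TwistAux

open TwistAux in
theorem twistStmt : TwistStmt := by
  intro p _ E G A K _ _ _ _ _ _ ι f j ρ hE act θ hθ α₀ hα₀
  obtain ⟨s, hs⟩ := hE.surj.hasRightInverse
  have hι : ∀ (ψ : K →+* K) (c : ZMod p), ψ (ι c) = ι c := by
    intro ψ c
    have h1 : ψ.comp ι = ι := Subsingleton.elim _ _
    exact congrArg (fun χ : ZMod p →+* K => χ c) h1
  refine ⟨fun l => ∑ σ, ι (l (ρ (s σ) α₀)) * act σ θ, ?_, ?_, ?_, ?_⟩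
  · intro l l'
    simp only [LinearMap.add_apply, map_add, add_mul, Finset.sum_add_distrib]
  · intro e l
    show act (f e) (∑ σ, ι ((l ∘ₗ (ρ e : A →ₗ[ZMod p] A)) (ρ (s σ) α₀)) * act σ θ) =
      ∑ σ, ι (l (ρ (s σ) α₀)) * act σ θ
    rw [map_sum]
    refine Fintype.sum_equiv (Equiv.mulLeft (f e)) _ _ fun σ => ?_
    have h1 : ρ e (ρ (s σ) α₀) = ρ (s (f e * σ)) α₀ := by
      rw [← LinearEquiv.mul_apply, ← map_mul]
      refine rho_eq hE _ _ ?_ α₀
      rw [map_mul, hs, hs]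
    have h2 : act (f e) (act σ θ) = act (f e * σ) θ := by
      rw [map_mul]
      rfl
    have h3 : act (f e) (ι (l (ρ (s (f e * σ)) α₀))) = ι (l (ρ (s (f e * σ)) α₀)) :=
      hι (act (f e) : K →+* K) _
    rw [map_mul, h2]
    show act (f e) (ι (l (ρ e (ρ (s σ) α₀)))) * act (f e * σ) θ =
      ι (l (ρ (s (f e * σ)) α₀)) * act (f e * σ) θ
    rw [h1, h3]
  · intro l hl
    refine hθ (fun σ => l (ρ (s σ) α₀)) fun h0 => hl (hα₀ l fun e => ?_)
    have h1 := congrFun h0 (f e)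
    rw [rho_eq hE e (s (f e)) (hs (f e)).symm α₀]
    exact h1
  · intro ψ hψ hψθ l
    show ψ (∑ σ, ι (l (ρ (s σ) α₀)) * act σ θ) = ∑ σ, ι (l (ρ (s σ) α₀)) * act σ θ
    rw [map_sum]
    refine Finset.sum_congr rfl fun σ _ => ?_
    rw [map_mul, hι ψ, hψ, hψθ]

end MP7Z.EPP
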