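import Pool.Agent.Lib.MP_7f581e_Z.BR.Main
import Pool.Agent.Lib.MP_7f581e_Z.EPP.PMain
import Pool.Agent.Lib.MP_7f581e_Z.EPP.Ker
import Pool.Agent.Lib.MP_7f581e_Z.EPP.Theta
import Pool.Agent.Lib.MP_7f581e_Z.EPP.Coc
import Pool.Agent.Lib.MP_7f581e_Z.EPP.Twist
import Pool.Agent.Lib.MP_7f581e_Z.EPP.GalF
import Pool.Agent.Lib.MP_7f581e_Z.EPP.ActL
import Pool.Agent.Lib.MP_7f581e_Z.EPP.Pole
import Pool.Agent.Lib.MP_7f581e_Z.EPL.RegG

/-! # `PStep p`, complete -/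

namespace MP7Z

/-- Embedding problems with kernel an elementary abelian `p`-group. -/
theorem ep_pStep (p : ℕ) [Fact p.Prime] : PStep p :=
  EPP.pStep EPP.kerStmt (EPP.actLStmt EPP.galFStmt) EPP.thetaStmt EPP.cocStmt EPP.twistStmt
    (EPP.poleStmt br_cst br_lvl br_bel br_res br_gal br_ram br_spl) EPL.regGStmt p

end MP7Z
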