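import Pool.Agent.Lib.MP_7f581e_Z.EPP.Spec

/-!
# Artin-Schreier extensions: `ASStmt`
-/

namespace MP7Z.EPP

namespace ASAux

open Module Polynomial

section Basic

variable (p : ℕ) [Fact p.Prime]

/-- the map from the prime field -/
noncomputable def io (F : Type) [Field F] [CharP F p] : ZMod p →+* F :=
  ZMod.castHom (dvd_refl p) F

theorem io_map {F F' : Type} [Field F] [CharP F p] [Field F'] [CharP F' p] (g : F →+* F')
    (c : ZMod p) : g (io p F c) = io p F' c := by
  have h : g.comp (io p F) = io p F' := Subsingleton.elim _ _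
  exact RingHom.congr_fun h c

theorem exists_io {F : Type} [Field F] [CharP F p] {z : F} (h : z ^ p - z = 0) :
    ∃ c, io p F c = z := by
  have h1 : z ∈ (⊥ : Subfield F) := (Subfield.mem_bot_iff_pow_eq_self F p).2 (sub_eq_zero.1 h)
  have h2 : (⊥ : Subfield F) ≤ (io p F).fieldRange := bot_le
  exact h2 h1

theorem io_wp {F : Type} [Field F] [CharP F p] (c : ZMod p) : (io p F c) ^ p - io p F c = 0 := by
  rw [← map_pow, ZMod.pow_card, sub_self]

theorem wp_add {F : Type} [Field F] [CharP F p] (x y : F) :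
    (x + y) ^ p - (x + y) = (x ^ p - x) + (y ^ p - y) := by
  rw [add_pow_char]; ring

theorem wp_sub {F : Type} [Field F] [CharP F p] (x y : F) :
    (x - y) ^ p - (x - y) = (x ^ p - x) - (y ^ p - y) := by
  rw [sub_pow_char]; ring

/-- the additive map `x ↦ x ^ p - x` -/
def wp (F : Type) [Field F] [CharP F p] : F →+ F :=
  AddMonoidHom.mk' (fun x => x ^ p - x) (wp_add p)

theorem exists_root_as {M : Type} [Field M] [IsAlgClosed M] (c : M) : ∃ r : M, r ^ p - r = c := by
  have hp : 1 < p := (Fact.out : p.Prime).one_lt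
  obtain ⟨r, hr⟩ := IsAlgClosed.exists_root (X ^ p - X - C c : M[X]) (by
    have h1 : (X ^ p - X - C c : M[X]).natDegree = p := by
      rw [natDegree_sub_C, natDegree_sub_eq_left_of_natDegree_lt]
      · exact natDegree_X_pow p
      · rw [natDegree_X_pow, natDegree_X]; exact hp
    intro h
    rw [natDegree_eq_of_degree_eq_some (n := 0) (by rw [h]; rfl)] at h1
    omega)
  refine ⟨r, ?_⟩
  rw [IsRoot, eval_sub, eval_sub, eval_pow, eval_X, eval_C, sub_eq_zero] at hr
  exact hr

theorem exists_y {M W : Type} [Field M] [IsAlgClosed M] [CharP M p] [AddCommGroup W]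
    [Module (ZMod p) W] (b : W → M) (hb : ∀ l l', b (l + l') = b l + b l') :
    ∃ y : W → M, (∀ l l', y (l + l') = y l + y l') ∧ ∀ l, y l ^ p - y l = b l := by
  letI : Algebra (ZMod p) M := ZMod.algebra M p
  let bs := Basis.ofVectorSpace (ZMod p) W
  choose r hr using fun i => exists_root_as p (b (bs i))
  let yL : W →ₗ[ZMod p] M := bs.constr (ZMod p) r
  let bL : W →ₗ[ZMod p] M := (AddMonoidHom.mk' b hb).toZModLinearMap p
  let wL : M →ₗ[ZMod p] M := (wp p M).toZModLinearMap p
  have h : wL ∘ₗ yL = bL := by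
    refine bs.ext fun i => ?_
    change (bs.constr (ZMod p) r (bs i)) ^ p - bs.constr (ZMod p) r (bs i) = b (bs i)
    rw [bs.constr_basis, hr]
  exact ⟨yL, fun l l' => map_add yL l l', fun l => LinearMap.congr_fun h l⟩

end Basic

section Galois

variable (p : ℕ) [Fact p.Prime] {K N W : Type} [Field K] [Field N] [CharP N p]
  [Algebra K N] [AddCommGroup W] [Module (ZMod p) W]

/-- a `K`-automorphism moves `y l` by an element of the prime field -/
theorem exists_delta (y : W → N) (hadd : ∀ l l', y (l + l') = y l + y l') {b : W → K}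
    (hy : ∀ l, y l ^ p - y l = algebraMap K N (b l)) (g : N ≃ₐ[K] N) :
    ∃ d : Dual (ZMod p) W, ∀ l, g (y l) = y l + io p N (d l) := by
  have h : ∀ l, ∃ c, io p N c = g (y l) - y l := fun l => by
    apply exists_io
    rw [wp_sub, ← map_pow, ← map_sub, hy, AlgEquiv.commutes, sub_self]
  choose d hd using h
  have hadd' : ∀ l l', d (l + l') = d l + d l' := fun l l' => by
    apply (io p N).injective
    rw [map_add, hd, hd, hd, hadd, map_add]
    ring
  exact ⟨(AddMonoidHom.mk' d hadd').toZModLinearMap p, fun l => by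
    change _ = y l + io p N (d l)
    rw [hd]; ring⟩

theorem delta_surj [IsGalois K N] [FiniteDimensional K N] [Finite W]
    (y : W → N) (hadd : ∀ l l', y (l + l') = y l + y l') (b : W → K)
    (hy : ∀ l, y l ^ p - y l = algebraMap K N (b l))
    (hgen : IntermediateField.adjoin K (Set.range y) = ⊤)
    (hb : ∀ l, (∃ z : K, z ^ p - z = b l) → l = 0) :
    (∀ d : Dual (ZMod p) W, ∃ g : N ≃ₐ[K] N, ∀ l, g (y l) = y l + io p N (d l)) ∧
      finrank K N = Nat.card W := by
  have hfin : Module.Finite (ZMod p) W := Module.Finite.of_finite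
  choose D hD using exists_delta p y hadd hy
  have hDmul : ∀ g h, D (g * h) = D g + D h := fun g h => by
    ext l
    apply (io p N).injective
    have h1 := hD (g * h) l
    rw [AlgEquiv.mul_apply, hD h l, map_add, hD g l] at h1
    have h2 : g (io p N (D h l)) = io p N (D h l) := io_map p (g : N →+* N) _
    rw [h2] at h1
    rw [LinearMap.add_apply, map_add]
    linear_combination -h1
  have hDinj : Function.Injective D := fun g h hgh => by
    have h1 : ∀ l, g (y l) = h (y l) := fun l => by rw [hD, hD, hgh]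
    have h2 : (⊤ : IntermediateField K N) ≤
        IntermediateField.fixedField (Subgroup.zpowers (h⁻¹ * g)) := by
      rw [← hgen, IntermediateField.adjoin_le_iff]
      rintro _ ⟨l, rfl⟩
      rw [SetLike.mem_coe, IntermediateField.mem_fixedField_iff]
      have h3 : (h⁻¹ * g) (y l) = y l := by
        rw [AlgEquiv.mul_apply, h1, ← AlgEquiv.mul_apply, inv_mul_cancel, AlgEquiv.one_apply]
      intro f hf
      exact (Subgroup.zpowers_le (H := MulAction.stabilizer (N ≃ₐ[K] N) (y l))).2 h3 hf
    have h4 : h⁻¹ * g = 1 := by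
      ext x
      have h5 := h2 (IntermediateField.mem_top (x := x))
      rw [IntermediateField.mem_fixedField_iff] at h5
      exact h5 _ (Subgroup.mem_zpowers _)
    exact (inv_mul_eq_one.1 h4).symm
  let S : AddSubgroup (Dual (ZMod p) W) :=
    { carrier := Set.range D
      add_mem' := by
        rintro _ _ ⟨g, rfl⟩ ⟨h, rfl⟩
        exact ⟨g * h, hDmul g h⟩
      zero_mem' := ⟨1, by
        have h1 := hDmul 1 1
        rw [mul_one] at h1
        exact left_eq_add.1 h1⟩
      neg_mem' := by
        rintro _ ⟨g, rfl⟩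
        refine ⟨g⁻¹, ?_⟩
        have h1 := hDmul 1 1
        rw [mul_one] at h1
        have h2 := hDmul g⁻¹ g
        rw [inv_mul_cancel, left_eq_add.1 h1] at h2
        exact eq_neg_of_add_eq_zero_left h2.symm }
  let S' : Submodule (ZMod p) (Dual (ZMod p) W) := AddSubgroup.toZModSubmodule p S
  have hS : S' = ⊤ := by
    by_contra hne
    obtain ⟨f, hf0, hf⟩ := Submodule.exists_le_ker_of_lt_top S' (lt_top_iff_ne_top.2 hne)
    obtain ⟨l, rfl⟩ := (bijective_dual_eval (ZMod p) W).2 f
    have h1 : ∀ g, D g l = 0 := fun g => by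
      have h2 : D g ∈ S' := ⟨g, rfl⟩
      exact hf h2
    have h2 : y l ∈ Set.range (algebraMap K N) := by
      rw [IsGalois.mem_range_algebraMap_iff_fixed]
      intro g
      rw [hD, h1, map_zero, add_zero]
    obtain ⟨z, hz⟩ := h2
    have h3 : z ^ p - z = b l := by
      apply (algebraMap K N).injective
      rw [map_sub, map_pow, hz, hy]
    have h4 := hb l ⟨z, h3⟩
    rw [h4, map_zero] at hf0
    exact hf0 rfl
  have hsurj : Function.Surjective D := fun d => by
    have h1 : d ∈ S' := by rw [hS]; trivial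
    exact h1
  refine ⟨fun d => ?_, ?_⟩
  · obtain ⟨g, rfl⟩ := hsurj d
    exact ⟨g, hD g⟩
  · rw [← IsGalois.card_aut_eq_finrank, Nat.card_congr (Equiv.ofBijective D ⟨hDinj, hsurj⟩),
      Module.natCard_eq_pow_finrank (K := ZMod p) (V := Dual (ZMod p) W),
      Module.natCard_eq_pow_finrank (K := ZMod p) (V := W), Subspace.dual_finrank_eq]

end Galois

section Adjoin

variable (p : ℕ) [Fact p.Prime] {K M W : Type} [Field K] [CharP K p] [Field M] [Algebra K M]

theorem monic_as (c : K) : (X ^ p - X - C c : K[X]).Monic := by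
  have hp : 1 < p := (Fact.out : p.Prime).one_lt
  rw [sub_sub]
  refine monic_X_pow_sub ?_
  rw [degree_X_add_C]
  exact_mod_cast hp

theorem separable_as (c : K) : (X ^ p - X - C c : K[X]).Separable := by
  rw [separable_def, derivative_sub, derivative_sub, derivative_C, derivative_X_pow, derivative_X]
  have h1 : (p : K) = 0 := CharP.cast_eq_zero K p
  rw [h1, C_0, zero_mul, zero_sub, sub_zero]
  exact isCoprime_one_right.neg_right

theorem aeval_as {y : M} {c : K} (h : y ^ p - y = algebraMap K M c) :
    aeval y (X ^ p - X - C c : K[X]) = 0 := by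
  rw [map_sub, map_sub, map_pow, aeval_X, aeval_C, h, sub_self]

theorem isSeparable_as {y : M} {c : K} (h : y ^ p - y = algebraMap K M c) : IsSeparable K y :=
  (separable_as p c).of_dvd (minpoly.dvd K y (aeval_as p h))

/-- The field generated by the `y l`. -/
theorem adjoin_as [Normal K M] [CharP M p] [Finite W] (y : W → M) (b : W → K)
    (hy : ∀ l, y l ^ p - y l = algebraMap K M (b l)) :
    FiniteDimensional K (IntermediateField.adjoin K (Set.range y)) ∧
      IsGalois K (IntermediateField.adjoin K (Set.range y)) := by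
  have h1 : FiniteDimensional K (IntermediateField.adjoin K (Set.range y)) := by
    refine IntermediateField.finiteDimensional_adjoin ?_
    rintro _ ⟨l, rfl⟩
    exact ⟨_, monic_as p (b l), aeval_as p (hy l)⟩
  have h2 : Algebra.IsSeparable K (IntermediateField.adjoin K (Set.range y)) := by
    rw [IntermediateField.isSeparable_adjoin_iff_isSeparable]
    rintro _ ⟨l, rfl⟩
    exact isSeparable_as p (hy l)
  have h3 : Normal K (IntermediateField.adjoin K (Set.range y)) := by
    rw [IntermediateField.normal_iff_forall_map_le']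
    intro σ
    rw [IntermediateField.adjoin_map, IntermediateField.adjoin_le_iff]
    rintro _ ⟨_, ⟨l, rfl⟩, rfl⟩
    have h4 : ∃ c, io p M c = σ (y l) - y l := by
      apply exists_io
      rw [wp_sub, ← map_pow, ← map_sub, hy, AlgEquiv.commutes, sub_self]
    obtain ⟨c, hc⟩ := h4
    have h5 : σ (y l) = y l + algebraMap K M (io p K c) := by
      rw [io_map p (algebraMap K M), hc]; ring
    change σ (y l) ∈ IntermediateField.adjoin K (Set.range y)
    rw [h5]
    exact add_mem (IntermediateField.subset_adjoin K _ ⟨l, rfl⟩) (IntermediateField.algebraMap_mem _ _)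
  exact ⟨h1, ⟨⟩⟩

/-- A ring endomorphism which maps generators to `K'` maps `K'` to `K'`. -/
theorem map_mem_adjoin {y : W → M} (T : M →+* M)
    (h1 : ∀ x : K, T (algebraMap K M x) ∈ IntermediateField.adjoin K (Set.range y))
    (h2 : ∀ l, T (y l) ∈ IntermediateField.adjoin K (Set.range y)) {z : M}
    (hz : z ∈ IntermediateField.adjoin K (Set.range y)) :
    T z ∈ IntermediateField.adjoin K (Set.range y) := by
  induction hz using IntermediateField.adjoin_induction with
  | mem x hx => obtain ⟨l, rfl⟩ := hx; exact h2 l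
  | algebraMap x => exact h1 x
  | add x y _ _ hx hy => rw [map_add]; exact add_mem hx hy
  | inv x _ hx => rw [map_inv₀]; exact inv_mem hx
  | mul x y _ _ hx hy => rw [map_mul]; exact mul_mem hx hy

end Adjoin

theorem core (p : ℕ) [Fact p.Prime] (K W M : Type) [Field K] [CharP K p] [AddCommGroup W]
    [Module (ZMod p) W] [Finite W] [Field M] [Algebra K M] [IsAlgClosed M] [IsAlgClosure K M]
    [Normal K M] [CharP M p] (b : W → K)
    (hb : ∀ l l', b (l + l') = b l + b l') (hb0 : ∀ l, (∃ z : K, z ^ p - z = b l) → l = 0) :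
    ∃ (K' : Type) (_ : Field K') (_ : Algebra K K') (y : W → K'),
      Module.Finite K K' ∧ Algebra.IsSeparable K K' ∧ finrank K K' = Nat.card W ∧
      (∀ l l', y (l + l') = y l + y l') ∧ (∀ l, y l ^ p - y l = algebraMap K K' (b l)) ∧
      IntermediateField.adjoin K (Set.range y) = ⊤ ∧
      ∀ (τ : K ≃+* K) (r : W ≃+ W) (a : W → K), (∀ l l', a (l + l') = a l + a l') →
        (∀ l, τ (b (r l)) = b l + (a l ^ p - a l)) →
        ∃ τ' : K' ≃+* K', (∀ x, τ' (algebraMap K K' x) = algebraMap K K' (τ x)) ∧
          ∀ l, τ' (y (r l)) = y l + algebraMap K K' (a l) := by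
  obtain ⟨y, hadd, hy⟩ := exists_y p (M := M)
    (fun l => algebraMap K M (b l)) (fun l l' => by rw [hb, map_add])
  set N := IntermediateField.adjoin K (Set.range y) with hN
  obtain ⟨hfin, hgal⟩ := adjoin_as p y b hy
  have hmem : ∀ l, y l ∈ N := fun l => IntermediateField.subset_adjoin K _ ⟨l, rfl⟩
  let y' : W → N := fun l => ⟨y l, hmem l⟩
  haveI : CharP N p := charP_of_injective_algebraMap (algebraMap K N).injective p
  have hadd' : ∀ l l', y' (l + l') = y' l + y' l' := fun l l' => Subtype.ext (hadd l l')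
  have hy' : ∀ l, y' l ^ p - y' l = algebraMap K N (b l) := fun l => Subtype.ext (hy l)
  have hgen : IntermediateField.adjoin K (Set.range y') = ⊤ := by
    apply IntermediateField.lift_injective N
    rw [IntermediateField.lift_adjoin, IntermediateField.lift_top, ← Set.range_comp]
    exact hN.symm
  obtain ⟨hsurj, hcard⟩ := delta_surj p y' hadd' b hy' hgen hb0
  refine ⟨N, inferInstance, inferInstance, y', hfin, inferInstance, hcard, hadd', hy', hgen, ?_⟩
  intro τ r a ha hτ
  let τ₁ : M ≃+* M := IsAlgClosure.equivOfEquiv M M τ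
  have hτ₁ : ∀ x, τ₁ (algebraMap K M x) = algebraMap K M (τ x) :=
    IsAlgClosure.equivOfEquiv_algebraMap M M τ
  have h1 : ∀ l, ∃ c, io p M c = τ₁ (y (r l)) - y l - algebraMap K M (a l) := fun l => by
    apply exists_io
    rw [wp_sub, wp_sub, hy l, ← map_pow τ₁, ← map_sub τ₁, hy, hτ₁, hτ, map_add, map_sub, map_pow]
    ring
  choose d hd using h1
  have hdadd : ∀ l l', d (l + l') = d l + d l' := fun l l' => by
    apply (io p M).injective
    rw [map_add, hd, hd, hd, map_add r, hadd, hadd, ha, map_add τ₁, map_add]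
    ring
  let D : Dual (ZMod p) W := (AddMonoidHom.mk' d hdadd).toZModLinearMap p
  obtain ⟨g, hg⟩ := hsurj (-D)
  let g₁ : M ≃ₐ[K] M := g.liftNormal M
  have hg₁ : ∀ x : N, g₁ (x : M) = (g x : M) := fun x => g.liftNormal_commutes M x
  let τ₂ : M ≃+* M := τ₁.trans (g₁ : M ≃+* M)
  have e1 : ∀ x, τ₂ (algebraMap K M x) = algebraMap K M (τ x) := fun x => by
    change g₁ (τ₁ (algebraMap K M x)) = _
    rw [hτ₁, AlgEquiv.commutes]
  have e2 : ∀ l, τ₂ (y (r l)) = y l + algebraMap K M (a l) := fun l => by
    change g₁ (τ₁ (y (r l))) = _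
    have h2 : τ₁ (y (r l)) = y l + algebraMap K M (a l) + io p M (d l) := by
      rw [hd]; ring
    have h3 : g₁ (y l) = y l - io p M (d l) := by
      have h4 := hg₁ (y' l)
      rw [hg] at h4
      have h5 : ((io p N ((-D) l) : N) : M) = - io p M (d l) := by
        have h6 : ((io p N ((-D) l) : N) : M) = io p M ((-D) l) :=
          io_map p (algebraMap N M) _
        rw [h6, LinearMap.neg_apply, map_neg]
        rfl
      rw [sub_eq_add_neg, ← h5]
      exact h4
    have h4 : g₁ (io p M (d l)) = io p M (d l) := io_map p (g₁ : M →+* M) _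
    rw [h2, map_add, map_add, h3, h4, AlgEquiv.commutes]
    ring
  have e3 : ∀ x, τ₂.symm (algebraMap K M x) = algebraMap K M (τ.symm x) := fun x => by
    rw [RingEquiv.symm_apply_eq, e1, RingEquiv.apply_symm_apply]
  have e4 : ∀ l, τ₂.symm (y l) = y (r l) - algebraMap K M (τ.symm (a l)) := fun l => by
    rw [RingEquiv.symm_apply_eq, map_sub, e1, e2, RingEquiv.apply_symm_apply]
    ring
  have m1 : ∀ z ∈ N, τ₂ z ∈ N := fun z hz => by
    refine map_mem_adjoin (τ₂ : M →+* M) (fun x => ?_) (fun l => ?_) hz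
    · change τ₂ (algebraMap K M x) ∈ N
      rw [e1]; exact N.algebraMap_mem _
    · change τ₂ (y l) ∈ N
      obtain ⟨l', rfl⟩ := r.surjective l
      rw [e2]
      exact add_mem (hmem _) (N.algebraMap_mem _)
  have m2 : ∀ z ∈ N, τ₂.symm z ∈ N := fun z hz => by
    refine map_mem_adjoin (τ₂.symm : M →+* M) (fun x => ?_) (fun l => ?_) hz
    · change τ₂.symm (algebraMap K M x) ∈ N
      rw [e3]; exact N.algebraMap_mem _
    · change τ₂.symm (y l) ∈ N
      rw [e4]
      exact sub_mem (hmem _) (N.algebraMap_mem _)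
  let τ' : N ≃+* N :=
    { toFun := fun z => ⟨τ₂ z, m1 z z.2⟩
      invFun := fun z => ⟨τ₂.symm z, m2 z z.2⟩
      left_inv := fun z => Subtype.ext (τ₂.symm_apply_apply z)
      right_inv := fun z => Subtype.ext (τ₂.apply_symm_apply z)
      map_mul' := fun z w => Subtype.ext (map_mul τ₂ (z : M) w)
      map_add' := fun z w => Subtype.ext (map_add τ₂ (z : M) w) }
  exact ⟨τ', fun x => Subtype.ext (e1 x), fun l => Subtype.ext (e2 l)⟩

end ASAux

theorem asStmt : ASStmt := by
  intro p _ K W _ _ _ _ _ b hb hb0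
  exact ASAux.core p K W (AlgebraicClosure K) b hb hb0

end MP7Z.EPP
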