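import Pool.Agent.Lib.MP_7f581e_Z.EPP.Spec

/-!
# Automorphisms which commute with the Frobenius automorphism
-/

set_option autoImplicit false

namespace MP7Z.EPP

open Module

theorem faithStmt : FaithStmt := by
  intro 𝕜 K _ _ _ _ q φ hF g hg hfix
  have hq2 : 2 ≤ q := hF.primePow.two_le
  refine AlgEquiv.ext fun x => ?_
  obtain ⟨n, hn, hx⟩ := hF.fin x
  have hpow : ∀ (i : ℕ) (c : 𝕜), (φ ^ i) (algebraMap 𝕜 K c) = algebraMap 𝕜 K (c ^ q ^ i) := by
    intro i
    induction i with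
    | zero =>
      intro c
      rw [pow_zero, pow_zero, pow_one]
      rfl
    | succ i ih =>
      intro c
      have h1 : (φ ^ (i + 1)) (algebraMap 𝕜 K c) = φ ((φ ^ i) (algebraMap 𝕜 K c)) := by
        rw [pow_succ']
        rfl
      rw [h1, ih, hF.frob, ← pow_mul, ← pow_succ]
  have hsucc : ∀ (i : ℕ) (y : K), (φ ^ (i + 1)) y = φ ((φ ^ i) y) := by
    intro i y
    rw [pow_succ']
    rfl
  have hgpow : ∀ (i : ℕ) (y : K), g ((φ ^ i) y) = (φ ^ i) (g y) := by
    intro i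
    induction i with
    | zero => intro y; rfl
    | succ i ih => intro y; rw [hsucc, hsucc, hg, ih]
  obtain ⟨m, hm1⟩ : ∃ m, q ^ n = m + 1 :=
    ⟨q ^ n - 1, by
      have h1 : 0 < q ^ n := pow_pos (by omega) n
      omega⟩
  have hm0 : (m : 𝕜) ≠ 0 := by
    intro h
    have h1 : ((q ^ n : ℕ) : 𝕜) = 1 := by
      rw [hm1]
      push_cast
      rw [h, zero_add]
    rw [Nat.cast_pow, hF.card, zero_pow hn.ne'] at h1
    exact zero_ne_one h1
  have : NeZero (m : 𝕜) := ⟨hm0⟩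
  obtain ⟨c, hc⟩ := HasEnoughRootsOfUnity.exists_primitiveRoot 𝕜 m
  have hcq : c ^ q ^ n = c := by rw [hm1, pow_succ, hc.pow_eq_one, one_mul]
  have hinj : Function.Injective fun i : Fin n => algebraMap 𝕜 K (c ^ q ^ (i : ℕ)) := by
    intro i j hij
    have h1 : c ^ q ^ (i : ℕ) = c ^ q ^ (j : ℕ) := (algebraMap 𝕜 K).injective hij
    by_cases h2 : n = 1
    · subst h2
      exact Subsingleton.elim _ _
    · have hlt : ∀ k : Fin n, q ^ (k : ℕ) < m := by
        intro k
        have h3 : q ^ (k : ℕ) * 2 ≤ q ^ n := by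
          calc q ^ (k : ℕ) * 2 ≤ q ^ (k : ℕ) * q := Nat.mul_le_mul_left _ hq2
            _ = q ^ ((k : ℕ) + 1) := (pow_succ _ _).symm
            _ ≤ q ^ n := Nat.pow_le_pow_right (by omega) k.2
        have h4 : 2 ^ 2 ≤ q ^ n := by
          calc 2 ^ 2 ≤ q ^ 2 := Nat.pow_le_pow_left hq2 2
            _ ≤ q ^ n := Nat.pow_le_pow_right (by omega) (by omega)
        omega
      exact Fin.ext (Nat.pow_right_injective hq2 (hc.pow_inj (hlt i) (hlt j) h1))
  have ht : ∀ k : ℕ, φ (∑ i ∈ Finset.range n, (φ ^ i) (algebraMap 𝕜 K (c ^ k) * x)) =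
      ∑ i ∈ Finset.range n, (φ ^ i) (algebraMap 𝕜 K (c ^ k) * x) := by
    intro k
    set y := algebraMap 𝕜 K (c ^ k) * x with hy
    have h1 : (φ ^ n) y = y := by
      rw [hy, map_mul, hpow, hx, ← pow_mul, mul_comm k, pow_mul, hcq]
    have h2 := Finset.sum_range_succ' (fun i => (φ ^ i) y) n
    rw [Finset.sum_range_succ, h1] at h2
    have h3 : (φ ^ 0) y = y := rfl
    rw [h3] at h2
    rw [map_sum]
    refine (add_right_cancel ((h2.trans ?_))).symm
    congr 1
    exact Finset.sum_congr rfl fun i _ => hsucc i y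
  have hv : (fun i : Fin n => g ((φ ^ (i : ℕ)) x) - (φ ^ (i : ℕ)) x) = 0 := by
    apply Matrix.eq_zero_of_forall_pow_sum_mul_pow_eq_zero hinj
    intro k
    have h1 := hfix _ (ht k)
    rw [map_sum, ← sub_eq_zero, ← Finset.sum_sub_distrib, Finset.sum_range] at h1
    rw [← h1]
    refine Finset.sum_congr rfl fun i _ => ?_
    rw [map_mul, hpow, map_mul, AlgEquiv.commutes]
    simp only [map_pow]
    ring
  have h0 := congrFun hv ⟨0, hn⟩
  have h1 : g x - x = 0 := h0
  exact sub_eq_zero.mp h1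

end MP7Z.EPP
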