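import Pool.Agent.Lib.MP_7f581e_Z.Interface
import Pool.Agent.Lib.MP_7f581e_Z.BR.Spec

/-!
# Package EP-p: the step `PStep p` (kernel an elementary abelian `p`-group) by Artin-Schreier theory

Notation of the proof.  `K` is the curve field (with group `G`, Frobenius `φ`, `X`), `f : E →* G` a
surjection with kernel `A`, an elementary abelian `p`-group written additively, embedded by `j`;
`E` acts on `A` by `ρ` (conjugation).  `Dual (ZMod p) A` is the space of linear forms on `A`; an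
element of `A ⊗ M` is given by the additive function `l ↦ y l` on the linear forms.  The action of
`e : E` on `A ⊗ K` is `(e y) l = act (f e) (y (l ∘ ρ e))`.
-/

namespace MP7Z.EPP

open Module

/-- `f : E →* G` is a surjection whose kernel is (by `j`) the `ZMod p`-module `A`, on which `E` acts
by conjugation (`ρ`). -/
structure IsExt (p : ℕ) {E G A : Type} [Group E] [Group G] [AddCommGroup A] [Module (ZMod p) A]
    (f : E →* G) (j : Multiplicative A →* E) (ρ : E →* (A ≃ₗ[ZMod p] A)) : Prop where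
  surj : Function.Surjective f
  inj : Function.Injective j
  ker : ∀ e : E, f e = 1 ↔ ∃ α : A, j (Multiplicative.ofAdd α) = e
  conj : ∀ (e : E) (α : A), e * j (Multiplicative.ofAdd α) * e⁻¹ = j (Multiplicative.ofAdd (ρ e α))

/-- **Ker** (80 lines).  The kernel as a module, and a vector `α₀` not killed by the conjugates of a
nonzero form.
Proof: `A := Additive f.ker` (the group structure commutative by `hc`: build the instance
`AddCommGroup` from the group structure of `f.ker` by hand, or first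
`letI : CommGroup f.ker := { inferInstanceAs (Group f.ker) with mul_comm := .. }`), the module
structure from `AddCommGroup.zmodModule`, `j` the inclusion, `ρ e` = conjugation by `e` (additive maps
between `ZMod p`-modules are linear: `AddMonoidHom.toZModLinearMap`, or `MulAut.conjNormal`).
`α₀`: if the kernel is trivial take `0` (then `A` is trivial and every form is zero).  Otherwise take
any `α₀ ≠ 0`.  Given `l` with `l (ρ e α₀) = 0` for all `e`, the set
`N = {j α | ∀ e, l (ρ e α) = 0}` is a normal subgroup of `E` contained in `f.ker` with `j α₀ ∈ N`,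
so `N = f.ker` by minimality, and `e = 1` gives `l α = 0` for all `α`. -/
def KerStmt : Prop :=
  ∀ (p : ℕ) [Fact p.Prime] (E G : Type) [Group E] [Finite E] [Group G] (f : E →* G),
    Function.Surjective f → (∀ a ∈ f.ker, a ^ p = 1) →
    (∀ a ∈ f.ker, ∀ b ∈ f.ker, a * b = b * a) →
    (∀ N : Subgroup E, N.Normal → N ≤ f.ker → N = ⊥ ∨ N = f.ker) →
    ∃ (A : Type) (_ : AddCommGroup A) (_ : Module (ZMod p) A) (_ : Finite A)
      (j : Multiplicative A →* E) (ρ : E →* (A ≃ₗ[ZMod p] A)),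
      IsExt p f j ρ ∧ ∃ α₀ : A, ∀ l : Dual (ZMod p) A, (∀ e, l (ρ e α₀) = 0) → l = 0

/-- **Faith** (80 lines).  A `𝕜`-automorphism `g` of `K` commuting with `φ` and trivial on the fixed
field of `φ` is trivial.
Proof: let `x : K`, `φ ^ n x = x`, `n > 0`.  `q` is a prime power and `(q : 𝕜) = 0`, so
`((q ^ n - 1 : ℕ) : 𝕜) ≠ 0` and there is a primitive root of unity `c : 𝕜` of order `m = q ^ n - 1`
(if `m = 0`, that is `q = 1`, impossible; `HasEnoughRootsOfUnity` or the splitting of the cyclotomic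
polynomial).  The powers `c ^ (q ^ i)`, `i < n`, are pairwise different
(`m` does not divide `q ^ j - q ^ i` for `i < j < n`, as `0 < q ^ j - q ^ i < m`) and
`c ^ (q ^ n) = c`.  (`q ≥ 2`.  For `n = 1`, `m = 1` is possible (`q = 2`), this is fine.)
For `k < n` the element `t_k = ∑_{i < n} φ^i (c^k x)` is fixed by `φ`, so
`0 = g t_k - t_k = ∑_{i<n} (c^(q^i))^k (g (φ^i x) - φ^i x)` (`φ^i (c^k) = (c^(q^i))^k`, and
`g` is `𝕜`-linear).  By the Vandermonde determinant
(`Matrix.eq_zero_of_forall_pow_sum_mul_pow_eq_zero`, or `..._index_...`) all `g (φ^i x) - φ^i x` are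
zero; take `i = 0`. -/
def FaithStmt : Prop :=
  ∀ (𝕜 K : Type) [Field 𝕜] [IsAlgClosed 𝕜] [Field K] [Algebra 𝕜 K]
    (q : ℕ) (φ : K ≃+* K), IsFrob 𝕜 q φ → ∀ g : K ≃ₐ[𝕜] K, (∀ x, g (φ x) = φ (g x)) →
    (∀ x, φ x = x → g x = x) → g = 1

/-- **Theta** (80 lines).  An element `θ` of trace `1` with `ZMod p`-independent conjugates.
Proof: let `G` act on `L` (`MulSemiringAction`), faithfully; `k₀ := FixedPoints.subfield G L`, `L / k₀`
is finite.  `exists_linearIndependent_algEquiv_apply k₀ L` gives `x : L` such that the `σ x`,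
`σ ∈ Gal(L/k₀)`, are linearly independent over `k₀`; the map `G → Gal(L/k₀)` is injective, so the
`g x`, `g : G`, are linearly independent.  `t := ∑ g, g x` is nonzero and in `k₀`; `θ := x / t`.
`ι (n g)` is in `k₀` (a ring homomorphism from `ZMod p` is unique, or: it is an integer). -/
def ThetaStmt : Prop :=
  ∀ (K G : Type) [Field K] [Group G] [Fintype G] (act : G →* (K ≃+* K)) (L : Subfield K)
    (p : ℕ) [Fact p.Prime] (ι : ZMod p →+* K),
    (∀ g, ∀ x ∈ L, act g x ∈ L) → (∀ g, (∀ x ∈ L, act g x = x) → g = 1) →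
    ∃ θ ∈ L, ∑ g, act g θ = 1 ∧
      ∀ n : G → ZMod p, n ≠ 0 → ∑ g, ι (n g) * act g θ ≠ 0

/-- **Coc** (120 lines).  The crossed homomorphism `a` and the element `b`.
Proof: choose a section `s : G → E` of `f`.  For `e : E`, `σ : G` let `κ e σ : A` be the element with
`j (κ e σ) = e * s ((f e)⁻¹ * σ) * (s σ)⁻¹`.  Then `κ (e * e') σ = κ e σ + ρ e (κ e' ((f e)⁻¹ * σ))`
and `κ (j α) σ = α`.  Put `a e l := ∑ σ, ι (l (κ e σ)) * act σ θ`.  The first formula: reindex
`σ = f e * τ` in the second sum.  The third: `∑ act σ θ = 1`.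
Write `℘ x = x ^ p - x` (additive, `add_pow_char`, commutes with ring homomorphisms, zero on the image
of `ι` by `ZMod.pow_card`) and `b l := - ∑ σ, ℘ (a (s σ) l) * act σ θ`.  Then
`act (f e) (b (l ∘ ρ e)) = - ∑ σ, ℘ (act (f e) (a (s σ) (l ∘ ρ e))) * act (f e * σ) θ`, and
`act (f e) (a (s σ) (l ∘ ρ e)) = a (e * s σ) l - a e l`, and
`e * s σ = j β * s (f e * σ)` for some `β`, so
`a (e * s σ) l = ι (l β) + a (s (f e * σ)) l` (`f (j β) = 1`, `ρ (j β) = 1` as `A` is commutative) and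
`℘ (a (e * s σ) l) = ℘ (a (s (f e * σ)) l)`; sum up. -/
def CocStmt : Prop :=
  ∀ (p : ℕ) [Fact p.Prime] (E G A K : Type) [Group E] [Group G] [Fintype G] [AddCommGroup A]
    [Module (ZMod p) A] [Field K] [CharP K p] (ι : ZMod p →+* K)
    (f : E →* G) (j : Multiplicative A →* E) (ρ : E →* (A ≃ₗ[ZMod p] A)), IsExt p f j ρ →
    ∀ (act : G →* (K ≃+* K)) (θ : K), ∑ g, act g θ = 1 →
    ∃ (a : E → Dual (ZMod p) A → K) (b : Dual (ZMod p) A → K),
      (∀ e e' l, a (e * e') l = a e l + act (f e) (a e' (l ∘ₗ (ρ e : A →ₗ[ZMod p] A)))) ∧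
      (∀ e l l', a e (l + l') = a e l + a e l') ∧
      (∀ α l, a (j (Multiplicative.ofAdd α)) l = ι (l α)) ∧
      (∀ l l', b (l + l') = b l + b l') ∧
      (∀ e l, act (f e) (b (l ∘ₗ (ρ e : A →ₗ[ZMod p] A))) = b l + (a e l ^ p - a e l)) ∧
      (∀ ψ : K →+* K, (∀ g x, ψ (act g x) = act g (ψ x)) → ψ θ = θ →
        (∀ e l, ψ (a e l) = a e l) ∧ ∀ l, ψ (b l) = b l)

/-- **Twist** (60 lines).  A nowhere vanishing invariant element of `A ⊗ K`.
Proof: `v l := ∑ σ, ι (l (ρ (s σ) α₀)) * act σ θ` for a section `s` of `f`.  As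
`ρ e ∘ ρ (s σ) = ρ (s (f e * σ))` (`e * s σ = j β * s (f e * σ)`, `ρ (j β) = 1`), the second property
holds.  If `l ≠ 0` there is an `e` with `l (ρ e α₀) ≠ 0`, `e = j β * s (f e)`, so
`l (ρ (s (f e)) α₀) ≠ 0` and the coefficient vector is nonzero. -/
def TwistStmt : Prop :=
  ∀ (p : ℕ) [Fact p.Prime] (E G A K : Type) [Group E] [Group G] [Fintype G] [AddCommGroup A]
    [Module (ZMod p) A] [Field K] (ι : ZMod p →+* K)
    (f : E →* G) (j : Multiplicative A →* E) (ρ : E →* (A ≃ₗ[ZMod p] A)), IsExt p f j ρ →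
    ∀ (act : G →* (K ≃+* K)) (θ : K),
    (∀ n : G → ZMod p, n ≠ 0 → ∑ g, ι (n g) * act g θ ≠ 0) →
    ∀ α₀ : A, (∀ l : Dual (ZMod p) A, (∀ e, l (ρ e α₀) = 0) → l = 0) →
    ∃ v : Dual (ZMod p) A → K,
      (∀ l l', v (l + l') = v l + v l') ∧
      (∀ e l, act (f e) (v (l ∘ₗ (ρ e : A →ₗ[ZMod p] A))) = v l) ∧
      (∀ l, l ≠ 0 → v l ≠ 0) ∧
      (∀ ψ : K →+* K, (∀ g x, ψ (act g x) = act g (ψ x)) → ψ θ = θ → ∀ l, ψ (v l) = v l)

/-- **GalF** (80 lines).  Galois correspondence for open subgroups of `Gx p x`: an automorphism which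
fixes all the elements fixed by the open subgroup `H` is in `H`.
Proof: `F₀ := IntermediateField.adjoin (ZMod p) {x}`; `Ω / F₀` is Galois (separable by the stage; normal
since `Ω` is separably closed: `IsSepClosure`).  Every `γ ∈ Gx p x` is an `F₀`-automorphism.  The subgroup
`H'` of `Gal(Ω/F₀)` corresponding to `H` is open (contains the fixing subgroup of the finite extension
`F₀(S)`; `krullTopology_mem_nhds_one_iff`, `Subgroup.isOpen_of_mem_nhds`), so closed, and
`InfiniteGalois.fixingSubgroup_fixedField` applies. -/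
def GalFStmt : Prop :=
  ∀ (p : ℕ) [Fact p.Prime] (Ω : Type) [Field Ω] [Algebra (ZMod p) Ω] (x : Ω), IsStage p x →
    ∀ (H : Subgroup (Ω ≃ₐ[ZMod p] Ω)) (S : Finset Ω), H ≤ Gx p x →
      (∀ γ ∈ Gx p x, (∀ s ∈ S, γ s = s) → γ ∈ H) →
      ∀ γ ∈ Gx p x, (∀ z : Ω, (∀ h ∈ H, h z = z) → γ z = z) → γ ∈ H

/-- **ActL** (80 lines).  The fixed field `L` of `ψ` with its action of `G`.
Proof: `L` is stable under `Gx p x`, because the kernel of `ψ` is normal: if `ψ δ = 1` then
`δ (γ z) = γ ((γ⁻¹ δ γ) z) = γ z`.  For `g : G` let `act g` be the restriction to `L` of any `γ` with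
`ψ γ = g` (two choices differ by an element of the kernel); a homomorphism.  Faithfulness: if `act g = 1`,
`g = ψ γ`, then `γ` fixes `L` pointwise, and *GalF* for `H = {γ ∈ Gx p x | ψ γ = 1}` gives `ψ γ = 1`.
*Uses*: GalF (hypothesis `(h : GalFStmt)`). -/
def ActLStmt : Prop :=
  ∀ (p : ℕ) [Fact p.Prime] (Ω : Type) [Field Ω] [Algebra (ZMod p) Ω] (x : Ω), IsStage p x →
    ∀ (G : Type) [Group G] (ψ : Gx p x →* G), FinLevel ψ → Function.Surjective ψ →
      ∃ (L : Subfield Ω) (act : G →* (L ≃+* L)),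
        (∀ z : Ω, z ∈ L ↔ ∀ γ : Gx p x, ψ γ = 1 → (γ : Ω ≃ₐ[ZMod p] Ω) z = z) ∧
        (∀ (γ : Gx p x) (z : L), ((act (ψ γ) z : L) : Ω) = (γ : Ω ≃ₐ[ZMod p] Ω) (z : Ω)) ∧
        ∀ g, (∀ z, act g z = z) → g = 1

/-- **Pole** (150 lines).  A twist which is not trivialized by the geometric kernel.
Proof.  Let `𝔽 = Cst p Ω`, `H = {γ ∈ Gx p x | γ fixes 𝔽 and ψ γ = 1}` (a subgroup of `Ω ≃ₐ Ω`), `K` the level
with `Fx p K = H` and `f ∈ K ↔ f` fixed by `H` (*Gal*), and `K₀ = 𝔽(x)`, also a level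
(`IntermediateField.adjoin (Cst p Ω) {x}`), `K₀ ≤ K`.
*Spl* with the set `T` of the nonzero elements among `b, v` gives `V ≠ ⊤` with `x ∈ V`,
`V.valuation v = 1`, `V.valuation b ≤ 1`, and `γ ∈ Gx p x ∩ Dec p V` implies `ψ γ = 1`.  By *Res* there is
`c ∈ 𝔽` with `V.valuation (x - c) < 1`.  `c` is algebraic over `ZMod p`, so `c ^ (p ^ n) = c` for some
`n > 0`; put `h = (x ^ (p^n) - x)⁻¹`, fixed by `Gx p x`.  Let `w`, `w₀` be the places of `K`, `K₀` below `V`
(*Bel*).  `w₀.pord (x - c) = 1` (`x - c` is a zero of degree one: `sum_zeros` for `x - c` in `𝔽(x)`,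
`[𝔽(x) : 𝔽(x - c)] = 1` by `adjoin_sub_const`, and third claim of *Bel*).  Inertia over `K₀` fixes `K`: if
`γ ∈ Fx p K₀ ⊓ Dec p V` then `γ ∈ Gx p x`, `ψ γ = 1` and `γ` fixes `𝔽`, so `γ ∈ H`.  So *Ram* gives
`w.pord (x - c) = 1`.  With `t = x - c`: `x ^ (p^n) - x = t ^ (p^n) - t`, so `w.pord h = -1`,
`w.pord (b + h v) = -1` (`w.ord v = 0`, `w.ord b ≥ 0` by *Bel*: `v, v⁻¹, b ∈ V`).
If `g ^ p - g = b + h v` with `g` fixed by `H`, then `g ∈ K`, and `w.pord (g ^ p - g)` is `≥ 0` or `b + h v = 0`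
if `0 ≤ w.ord g`, and is `p * w.pord g` if `w.pord g < 0`; both are impossible.
*Uses*: Lvl, Bel, Res, Gal, Ram, Spl, Cst. -/
def PoleStmt : Prop :=
  ∀ (p : ℕ) [Fact p.Prime] (Ω : Type) [Field Ω] [Algebra (ZMod p) Ω] (x : Ω), IsStage p x →
    ∀ (G : Type) [Group G] [Finite G] (ψ : Gx p x →* G), FinLevel ψ → ∀ b v : Ω,
      (∀ γ : Gx p x, ψ γ = 1 → (γ : Ω ≃ₐ[ZMod p] Ω) b = b) →
      (∀ γ : Gx p x, ψ γ = 1 → (γ : Ω ≃ₐ[ZMod p] Ω) v = v) → v ≠ 0 →
      ∃ h : Ω, (∀ γ ∈ Gx p x, γ h = h) ∧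
        ∀ g : Ω, (∀ γ : Gx p x, (γ : Ω ≃ₐ[ZMod p] Ω) ∈ Fx p (Cst p Ω : Set Ω) → ψ γ = 1 →
          (γ : Ω ≃ₐ[ZMod p] Ω) g = g) → g ^ p - g ≠ b + h * v

/-- **Artin-Schreier field.** (200 lines)
Proof.  Let `Ω` be an algebraic closure of `K`, and `y : W → Ω` additive with `y l ^ p - y l = b l`
(choose a basis of `W`, roots for the basis elements, extend linearly; both sides are additive in `l`).
`K' := IntermediateField.adjoin K (Set.range y)`, a finite Galois extension of `K`: generated by roots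
of the separable polynomials `T ^ p - T - b l` (derivative `-1`), all of whose roots `y l + ι c`,
`c : ZMod p`, are in `K'`.
Degree: for `g` in `Gal(K'/K)` the function `δ g : l ↦ g (y l) - y l` is additive with values in the
roots of `T ^ p - T`, i.e. in the image of `ι : ZMod p →+* K'`, so `δ g : W →ₗ[ZMod p] ZMod p`;
`δ` is an injective homomorphism `Gal(K'/K) → Dual W`.  It is surjective: otherwise the image (a
subgroup, hence a subspace, of `Dual W`) is annihilated by some `l ≠ 0` in `W` (finite dimensional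
duality), so `y l` is fixed by `Gal(K'/K)`, so `y l ∈ K` and `b l ∈ ℘ K`, contradiction.
So `[K' : K] = card (Dual W) = card W`.
Extension of `τ`: uniqueness is clear, since `K'` is generated by `K` and the `y (r l)` (`r` is
surjective).  Existence: let `τ₁ : Ω ≃+* Ω` extend `τ` (`IsAlgClosure.equivOfEquiv`).  The function
`l ↦ τ₁ (y (r l)) - y l - a l` is additive and killed by `℘`, so it is `ι ∘ δ₀` with
`δ₀ : Dual W`; choose `g : Gal(K'/K)` with `δ g = - δ₀` and extend it to `g₁ : Ω ≃ₐ[K] Ω`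
(`AlgEquiv.restrictNormalHom_surjective` or `IsAlgClosure.equivOfAlgebraic`…).  `τ₂ := g₁ ∘ τ₁` extends
`τ` and `τ₂ (y (r l)) = y l + a l` (as `g₁` fixes `a l ∈ K` and the image of `ι`).  So `τ₂` maps `K'`
to `K'`, and so does its inverse (`τ₂⁻¹ (y l) = y (r l) - τ⁻¹ (a l)`); restrict. -/
def ASStmt : Prop :=
  ∀ (p : ℕ) [Fact p.Prime] (K W : Type) [Field K] [CharP K p] [AddCommGroup W]
    [Module (ZMod p) W] [Finite W] (b : W → K),
    (∀ l l', b (l + l') = b l + b l') → (∀ l, (∃ z : K, z ^ p - z = b l) → l = 0) →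
    ∃ (K' : Type) (_ : Field K') (_ : Algebra K K') (y : W → K'),
      Module.Finite K K' ∧ Algebra.IsSeparable K K' ∧ finrank K K' = Nat.card W ∧
      (∀ l l', y (l + l') = y l + y l') ∧ (∀ l, y l ^ p - y l = algebraMap K K' (b l)) ∧
      IntermediateField.adjoin K (Set.range y) = ⊤ ∧
      ∀ (τ : K ≃+* K) (r : W ≃+ W) (a : W → K), (∀ l l', a (l + l') = a l + a l') →
        (∀ l, τ (b (r l)) = b l + (a l ^ p - a l)) →
        ∃ τ' : K' ≃+* K', (∀ x, τ' (algebraMap K K' x) = algebraMap K K' (τ x)) ∧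
          ∀ l, τ' (y (r l)) = y l + algebraMap K K' (a l)

end MP7Z.EPP
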